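import Pool.Agent.Lib.MP_5499ac_co.Peel

namespace Pool.Agent.Lib.MP_5499ac_co

open Module Finset
open scoped BigOperators

universe u v w

lemma expect_comp_surj {A : Type v} {B : Type w} [AddCommGroup A] [AddCommGroup B] [Fintype A]
    [Fintype B] (π : A →+ B) (hπ : Function.Surjective π) (f : B → ℝ) :
    𝔼 a, f (π a) = 𝔼 b, f b := by
  classical
  set c : ℕ := #{a | π a = 0} with hc
  have hfib : ∀ b : B, #{a | π a = b} = c := fun b =>
    AddMonoidHom.card_fiber_eq_of_mem_range π (hπ b) (hπ 0)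
  have hsum : ∀ g : B → ℝ, ∑ a, g (π a) = c * ∑ b, g b := by
    intro g
    rw [← Finset.sum_fiberwise (s := univ) (g := π) (f := fun a => g (π a)), mul_sum]
    refine sum_congr rfl fun b _ => ?_
    rw [sum_congr rfl (g := fun _ => g b), sum_const, hfib, nsmul_eq_mul]
    intro a ha
    rw [(mem_filter.mp ha).2]
  have hcard : (Fintype.card A : ℝ) = c * Fintype.card B := by
    simpa using hsum (fun _ => 1)
  have hA : (0 : ℝ) < Fintype.card A := by exact_mod_cast Fintype.card_pos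
  have hB : (0 : ℝ) < Fintype.card B := by exact_mod_cast Fintype.card_pos
  have hc0 : (c : ℝ) ≠ 0 := by
    intro h; rw [h, zero_mul] at hcard; linarith
  rw [Fintype.expect_eq_sum_div_card, Fintype.expect_eq_sum_div_card, hsum, hcard]
  field_simp

lemma expect_prod_mul {A : Type v} {B : Type w} [Fintype A] [Fintype B] (f : A → ℝ) (g : B → ℝ) :
    𝔼 p : A × B, f p.1 * g p.2 = (𝔼 a, f a) * 𝔼 b, g b := by
  rw [Fintype.expect_mul_expect, ← Finset.expect_product', univ_product_univ]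

lemma expect_shift {A : Type v} [AddCommGroup A] [Fintype A] (f : A → ℝ) (s : A) :
    𝔼 a, f (a + s) = 𝔼 a, f a :=
  Fintype.expect_equiv (Equiv.addRight s) _ _ (fun _ => rfl)

variable {K : Type u} [Field K] {V : Type v} [AddCommGroup V] [Module K V]
  {D : Type w} [AddCommGroup D] [Module K D]

lemma eq_zero_or_one [Fintype K] (hK : Fintype.card K = 2) (c : K) : c = 0 ∨ c = 1 := by
  classical
  by_contra h
  push Not at h
  have : #({0, 1, c} : Finset K) ≤ 2 := hK ▸ card_le_univ _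
  rw [card_insert_of_notMem, card_insert_of_notMem, card_singleton] at this
  · omega
  · simpa using h.2.symm
  · simp [h.1.symm]

lemma exists_dual_pair [Fintype K] (hK : Fintype.card K = 2) {w w' : D} (hw : w ≠ 0)
    (hww : w ≠ w') : ∃ f : D →ₗ[K] K, f w = 1 ∧ f w' = 0 := by
  have h : w ∉ K ∙ w' := by
    rw [Submodule.mem_span_singleton]
    rintro ⟨c, hc⟩
    rcases eq_zero_or_one hK c with rfl | rfl
    · exact hw (by simpa using hc.symm)
    · exact hww (by simpa using hc.symm)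
  obtain ⟨f, hf, hf'⟩ := Submodule.exists_dual_map_eq_bot_of_notMem h inferInstance
  refine ⟨f, (eq_zero_or_one hK _).resolve_left hf, ?_⟩
  have : f w' ∈ (K ∙ w').map f := Submodule.mem_map_of_mem (Submodule.mem_span_singleton_self _)
  rw [hf'] at this
  simpa using this

lemma exists_map_pair [Fintype K] (hK : Fintype.card K = 2) {w w' : D} (hw : w ≠ 0) (hw' : w' ≠ 0)
    (hww : w ≠ w') (x x' : V) : ∃ A : D →ₗ[K] V, A w = x ∧ A w' = x' := by
  obtain ⟨f, hf, hf'⟩ := exists_dual_pair hK hw hww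
  obtain ⟨g, hg, hg'⟩ := exists_dual_pair hK hw' hww.symm
  exact ⟨f.smulRight x + g.smulRight x', by simp [hf, hg'], by simp [hf', hg]⟩

lemma exists_map_one [Fintype K] (hK : Fintype.card K = 2) {w : D} (hw : w ≠ 0) (x : V) :
    ∃ A : D →ₗ[K] V, A w = x := by
  obtain ⟨f, hf, -⟩ := exists_dual_pair hK hw hw
  exact ⟨f.smulRight x, by simp [hf]⟩

/-- Evaluation of a linear map at a point, as an additive map. -/
def ev (K : Type u) [Field K] (V : Type v) [AddCommGroup V] [Module K V]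
    {D : Type w} [AddCommGroup D] [Module K D] (w : D) : (D →ₗ[K] V) →+ V where
  toFun A := A w
  map_zero' := rfl
  map_add' _ _ := rfl

lemma expect_ev [Fintype K] (hK : Fintype.card K = 2) [Fintype V] [Fintype (D →ₗ[K] V)] {w : D}
    (hw : w ≠ 0) (f : V → ℝ) : 𝔼 A : D →ₗ[K] V, f (A w) = 𝔼 x, f x :=
  expect_comp_surj (ev K V w) (fun x => exists_map_one hK hw x) f

lemma expect_ev_pair [Fintype K] (hK : Fintype.card K = 2) [Fintype V] [Fintype (D →ₗ[K] V)]
    {w w' : D} (hw : w ≠ 0) (hw' : w' ≠ 0) (hww : w ≠ w') (f g : V → ℝ) :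
    𝔼 A : D →ₗ[K] V, f (A w) * g (A w') = (𝔼 x, f x) * 𝔼 x, g x := by
  rw [← expect_prod_mul]
  refine expect_comp_surj ((ev K V w).prod (ev K V w')) ?_ (fun p => f p.1 * g p.2)
  rintro ⟨x, x'⟩
  obtain ⟨A, h1, h2⟩ := exists_map_pair hK hw hw' hww x x'
  exact ⟨A, Prod.ext h1 h2⟩

lemma var_lemma [Fintype K] (hK : Fintype.card K = 2) [Fintype V] [Fintype D]
    [Fintype (D →ₗ[K] V)] (f : V → ℝ) (hf : 𝔼 x, f x = 0) :
    𝔼 A : D →ₗ[K] V, (𝔼 w, f (A w)) ^ 2 ≤
      f 0 ^ 2 / (Fintype.card D : ℝ) ^ 2 + (𝔼 x, f x ^ 2) / Fintype.card D := by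
  classical
  have hD : (0 : ℝ) < Fintype.card D := by exact_mod_cast Fintype.card_pos
  have hu : 0 ≤ 𝔼 x, f x ^ 2 := expect_nonneg fun _ _ => sq_nonneg _
  have h1 : ∀ A : D →ₗ[K] V, (𝔼 w, f (A w)) ^ 2 = 𝔼 w, 𝔼 w', f (A w) * f (A w') := by
    intro A
    rw [sq, Fintype.expect_mul_expect]
  simp_rw [h1]
  rw [expect_comm]
  have h2 : ∀ w : D, 𝔼 A : D →ₗ[K] V, 𝔼 w', f (A w) * f (A w') =
      (𝔼 A : D →ₗ[K] V, f (A w) * f (A w)) / Fintype.card D := by
    intro w
    rw [expect_comm, expect_eq_single_of_mem w (mem_univ _)]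
    · simp [NNRat.smul_def, div_eq_inv_mul]
    · intro w' _ hww
      by_cases hw : w = 0
      · subst hw
        simp only [map_zero]
        rw [← mul_expect, expect_ev hK hww, hf, mul_zero]
      by_cases hw' : w' = 0
      · subst hw'
        simp only [map_zero]
        rw [← expect_mul, expect_ev hK hw, hf, zero_mul]
      rw [expect_ev_pair hK hw hw' hww.symm, hf, zero_mul]
  simp_rw [h2]
  have h3 : ∀ w : D, (𝔼 A : D →ₗ[K] V, f (A w) * f (A w)) ≤
      (if w = 0 then f 0 ^ 2 else 0) + 𝔼 x, f x ^ 2 := by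
    intro w
    split_ifs with hw
    · subst hw
      simp only [map_zero]
      rw [Fintype.expect_const, sq]
      linarith
    · rw [expect_ev hK hw (fun x => f x * f x), zero_add]
      simp_rw [sq]
      exact le_rfl
  rw [← expect_div]
  have h4 : 𝔼 w : D, 𝔼 A : D →ₗ[K] V, f (A w) * f (A w) ≤
      f 0 ^ 2 / Fintype.card D + 𝔼 x, f x ^ 2 := by
    refine (expect_le_expect fun w _ => h3 w).trans ?_
    rw [expect_add_distrib, Fintype.expect_const, Fintype.expect_eq_sum_div_card]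
    simp
  calc _ ≤ (f 0 ^ 2 / Fintype.card D + 𝔼 x, f x ^ 2) / Fintype.card D := by gcongr
    _ = _ := by field_simp

lemma prod_lower (k : ℕ) : 2 ^ (k * k) ≤ 4 * ∏ i : Fin k, (2 ^ k - 2 ^ (i : ℕ)) := by
  have key : ∀ j : ℕ, (1 : ℝ) / 4 + (1 / 2) ^ (j + 2) ≤
      ∏ i ∈ range (j + 1), (1 - (1 / 2 : ℝ) ^ (i + 1)) := by
    intro j
    induction j with
    | zero => norm_num
    | succ j ih =>
      rw [prod_range_succ]
      have h0 : (0 : ℝ) < (1 / 2) ^ (j + 2) := by positivity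
      have h1 : ((1 : ℝ) / 2) ^ (j + 2) ≤ 1 / 4 := by
        rw [pow_add]
        have : ((1 : ℝ) / 2) ^ j ≤ 1 := pow_le_one₀ (by norm_num) (by norm_num)
        nlinarith
      have h2 : ((1 : ℝ) / 2) ^ (j + 1 + 2) = (1 / 2) ^ (j + 2) / 2 := by ring
      have h3 : ((1 : ℝ) / 2) ^ (j + 1 + 1) = (1 / 2) ^ (j + 2) := by ring
      rw [h2, h3]
      calc _ ≤ (1 / 4 + (1 / 2 : ℝ) ^ (j + 2)) * (1 - (1 / 2) ^ (j + 2)) := by nlinarith
        _ ≤ _ := mul_le_mul_of_nonneg_right ih (by linarith)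
  have key2 : (1 : ℝ) / 4 ≤ ∏ i ∈ range k, (1 - (1 / 2 : ℝ) ^ (i + 1)) := by
    rcases k with _ | j
    · norm_num
    · have := key j
      have h0 : (0 : ℝ) < (1 / 2) ^ (j + 2) := by positivity
      linarith
  have h : ((∏ i : Fin k, (2 ^ k - 2 ^ (i : ℕ)) : ℕ) : ℝ) =
      2 ^ (k * k) * ∏ i ∈ range k, (1 - (1 / 2 : ℝ) ^ (i + 1)) := by
    rw [Fin.prod_univ_eq_prod_range (fun i => 2 ^ k - 2 ^ i) k, ← prod_range_reflect, pow_mul]
    push_cast
    rw [show ((2 : ℝ) ^ k) ^ k = ∏ _i ∈ range k, (2 : ℝ) ^ k by simp, ← prod_mul_distrib]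
    refine prod_congr rfl fun i hi => ?_
    rw [mem_range] at hi
    rw [Nat.cast_sub (Nat.pow_le_pow_right (by norm_num) (by omega))]
    push_cast
    obtain ⟨d, rfl⟩ : ∃ d, k = d + (i + 1) := ⟨k - (i + 1), by omega⟩
    rw [show d + (i + 1) - 1 - i = d by omega, pow_add, one_div, inv_pow]
    field_simp
  have : ((2 ^ (k * k) : ℕ) : ℝ) ≤ ((4 * ∏ i : Fin k, (2 ^ k - 2 ^ (i : ℕ)) : ℕ) : ℝ) := by
    rw [Nat.cast_mul, h]
    push_cast
    have : (0 : ℝ) < 2 ^ (k * k) := by positivity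
    nlinarith
  exact_mod_cast this

lemma card_equiv_lower [Fintype K] (hK : Fintype.card K = 2) [Module.Finite K D] :
    2 ^ (finrank K D * finrank K D) ≤ 4 * Nat.card (D ≃ₗ[K] D) := by
  have e := ((Matrix.GeneralLinearGroup.toLin' (Module.finBasis K D)).trans
    (LinearMap.GeneralLinearGroup.generalLinearEquiv K D)).toEquiv
  rw [← Nat.card_congr e, Matrix.card_GL_field, hK]
  exact prod_lower _

open Classical in
lemma card_inj_lower [Fintype K] (hK : Fintype.card K = 2) [Finite D] [Finite V]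
    [Fintype (D →ₗ[K] V)] (W : Finset (Submodule K V))
    (hW : ∀ A ∈ W, finrank K A = finrank K D) :
    #W * 2 ^ (finrank K D * finrank K D) ≤
      4 * #{A : D →ₗ[K] V | Function.Injective A ∧ LinearMap.range A ∈ W} := by
  have hfin : Finite (D ≃ₗ[K] D) := DFunLike.finite _
  let : Fintype (D ≃ₗ[K] D) := Fintype.ofFinite _
  have he : ∀ A : W, Nonempty (D ≃ₗ[K] (A : Submodule K V)) := fun A =>
    FiniteDimensional.nonempty_linearEquiv_of_finrank_eq (hW A A.2).symm
  let e : ∀ A : W, D ≃ₗ[K] (A : Submodule K V) := fun A => (he A).some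
  let Φ : W × (D ≃ₗ[K] D) → (D →ₗ[K] V) := fun p =>
    (p.1 : Submodule K V).subtype ∘ₗ (p.2.trans (e p.1)).toLinearMap
  have hr : ∀ p, LinearMap.range (Φ p) = p.1 := by
    intro p
    simp only [Φ]
    rw [LinearMap.range_comp, LinearEquiv.range, Submodule.map_subtype_top]
  have hinj : Function.Injective Φ := by
    rintro ⟨A, g⟩ ⟨A', g'⟩ h
    have h1 : A = A' := Subtype.ext (by rw [← hr (A, g), h, hr])
    subst h1
    congr 1
    ext d
    have := LinearMap.congr_fun h d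
    simp only [Φ, LinearMap.comp_apply, Submodule.subtype_apply, LinearEquiv.coe_coe,
      LinearEquiv.trans_apply] at this
    exact (e A).injective (Subtype.ext this)
  have h1 : Fintype.card (W × (D ≃ₗ[K] D)) ≤
      #{A : D →ₗ[K] V | Function.Injective A ∧ LinearMap.range A ∈ W} := by
    rw [← card_univ]
    apply card_le_card_of_injOn Φ
    · intro p _
      simp only [coe_filter, mem_univ, true_and, Set.mem_ofPred_eq]
      refine ⟨?_, by rw [hr]; exact p.1.2⟩
      exact (Submodule.injective_subtype _).comp (p.2.trans (e p.1)).injective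
    · exact hinj.injOn
  rw [Fintype.card_prod, Fintype.card_coe, ← Nat.card_eq_fintype_card] at h1
  have h2 := card_equiv_lower (D := D) hK
  calc _ ≤ #W * (4 * Nat.card (D ≃ₗ[K] D)) := Nat.mul_le_mul_left _ h2
    _ = 4 * (#W * Nat.card (D ≃ₗ[K] D)) := by ring
    _ ≤ _ := Nat.mul_le_mul_left _ h1

lemma card_hom [Fintype K] [Finite D] [Finite V] [Fintype (D →ₗ[K] V)] :
    Fintype.card (D →ₗ[K] V) = Fintype.card K ^ (finrank K D * finrank K V) := by
  rw [Module.card_eq_pow_finrank (K := K), Module.finrank_linearMap]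

end Pool.Agent.Lib.MP_5499ac_co
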