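import Pool.Agent.Lib.MP_5499ac_co.Defs

namespace Pool.Agent.Lib.MP_5499ac_co

open Module Finset

universe u v w

/-- `1 + q + ... + q^(m-1)`. -/
def br (q m : ℕ) : ℕ := ∑ i ∈ range m, q ^ i

lemma br_succ (q m : ℕ) : br q (m + 1) = br q m + q ^ m := by
  simp [br, sum_range_succ]

lemma br_zero (q : ℕ) : br q 0 = 0 := by simp [br]

lemma br_one (q : ℕ) : br q 1 = 1 := by simp [br]

lemma br_lt_pow {q : ℕ} (hq : 2 ≤ q) (m : ℕ) : br q m < q ^ m := by
  induction m with
  | zero => simp [br]
  | succ m ih =>
    rw [br_succ, pow_succ]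
    nlinarith

lemma br_le_pow {q : ℕ} (hq : 2 ≤ q) (m : ℕ) : br q m ≤ q ^ m := (br_lt_pow hq m).le

lemma two_mul_br_le_pow {q : ℕ} (hq : 3 ≤ q) (m : ℕ) : 2 * br q m ≤ q ^ m := by
  induction m with
  | zero => simp [br]
  | succ m ih =>
    rw [br_succ, pow_succ]
    nlinarith

lemma br_mono {q : ℕ} {a b : ℕ} (h : a ≤ b) : br q a ≤ br q b := by
  unfold br
  exact sum_le_sum_of_subset (range_mono h)

lemma br_pos {q : ℕ} {a : ℕ} (h : 1 ≤ a) : 0 < br q a := by
  have := br_mono (q := q) h
  rw [br_one] at this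
  omega

lemma br_add (q a d : ℕ) : br q (a + d) = br q a * q ^ d + br q d := by
  induction a with
  | zero => simp [br]
  | succ a ih =>
    rw [show a + 1 + d = (a + d) + 1 by ring, br_succ, ih, br_succ, pow_add]
    ring

lemma br_mul_pow_le (q a d : ℕ) : br q a * q ^ d ≤ br q (a + d) := by
  rw [br_add]; omega

lemma br_lt_br {q : ℕ} (hq : 1 ≤ q) {a b : ℕ} (h : a < b) : br q a < br q b := by
  have h1 := br_mono (q := q) (show a + 1 ≤ b from h)
  rw [br_succ] at h1
  have : 0 < q ^ a := Nat.pow_pos hq
  omega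

lemma br_eq_div {q : ℕ} (hq : 2 ≤ q) (m : ℕ) : (q ^ m - 1) / (q - 1) = br q m := by
  unfold br
  rw [Nat.geomSum_eq hq]

variable {K : Type u} [Field K] {V : Type v} [AddCommGroup V] [Module K V]

/-- The finite set of `k`-dimensional subspaces of `V`. -/
noncomputable def Gr (K : Type u) [Field K] (V : Type v) [AddCommGroup V] [Module K V] [Finite V]
    (k : ℕ) : Finset (Submodule K V) :=
  (Set.toFinite {U : Submodule K V | finrank K U = k}).toFinset

@[simp] lemma mem_Gr [Finite V] {k : ℕ} {U : Submodule K V} : U ∈ Gr K V k ↔ finrank K U = k := by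
  simp [Gr]

lemma card_Gr_congr [Finite V] {V' : Type w} [AddCommGroup V'] [Module K V'] [Finite V']
    (e : V ≃ₗ[K] V') (k : ℕ) : #(Gr K V k) = #(Gr K V' k) := by
  apply Finset.card_bij (fun U _ => U.map e.toLinearMap)
  · intro U hU
    rw [mem_Gr] at hU ⊢
    rw [← hU]
    exact LinearEquiv.finrank_map_eq e U
  · intro U _ U' _ h
    exact Submodule.map_injective_of_injective e.injective h
  · intro U hU
    refine ⟨U.map e.symm.toLinearMap, ?_, ?_⟩
    · rw [mem_Gr] at hU ⊢
      rw [← hU]
      exact LinearEquiv.finrank_map_eq e.symm U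
    · rw [← Submodule.map_comp]
      simp

lemma card_Gr [Finite K] [Finite V] (k : ℕ) : #(Gr K V k) = gauss K (finrank K V) k := by
  have e : V ≃ₗ[K] (Fin (finrank K V) → K) := (Module.finBasis K V).equivFun
  rw [card_Gr_congr e, gauss, Gr, Set.ncard_eq_toFinset_card _ (Set.toFinite _)]

open Classical in
lemma card_filter_le [Finite K] [Finite V] (Y : Submodule K V) (k : ℕ) :
    #((Gr K V k).filter (· ≤ Y)) = gauss K (finrank K Y) k := by
  rw [← card_Gr]
  symm
  apply Finset.card_bij (fun U _ => U.map Y.subtype)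
  · intro U hU
    rw [mem_filter, mem_Gr]
    rw [mem_Gr] at hU
    exact ⟨by rw [Submodule.finrank_map_subtype_eq, hU], Submodule.map_subtype_le Y U⟩
  · intro U _ U' _ h
    exact Submodule.map_injective_of_injective Y.injective_subtype h
  · intro U hU
    rw [mem_filter, mem_Gr] at hU
    refine ⟨U.comap Y.subtype, ?_, ?_⟩
    · rw [mem_Gr, ← hU.1]
      exact (Submodule.comapSubtypeEquivOfLe hU.2).finrank_eq
    · rw [Submodule.map_comap_subtype, inf_eq_right.mpr hU.2]

lemma finrank_comap_mkQ [Finite V] (U : Submodule K V) (B : Submodule K (V ⧸ U)) :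
    finrank K (B.comap U.mkQ) = finrank K B + finrank K U := by
  have hle : U ≤ B.comap U.mkQ := Submodule.le_comap_mkQ U B
  have h := LinearMap.finrank_range_add_finrank_ker (U.mkQ.domRestrict (B.comap U.mkQ))
  rw [← h]
  congr 1
  · rw [LinearMap.range_domRestrict, Submodule.map_comap_eq_of_surjective U.mkQ_surjective]
  · rw [LinearMap.ker_domRestrict, Submodule.ker_mkQ]
    exact (Submodule.comapSubtypeEquivOfLe hle).finrank_eq

open Classical in
lemma card_filter_ge [Finite K] [Finite V] (U : Submodule K V) (k : ℕ) (h : finrank K U ≤ k) :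
    #((Gr K V k).filter (U ≤ ·)) = gauss K (finrank K V - finrank K U) (k - finrank K U) := by
  have hq : finrank K (V ⧸ U) = finrank K V - finrank K U := by
    have := Submodule.finrank_quotient_add_finrank U
    omega
  have : Finite (V ⧸ U) := Finite.of_surjective _ U.mkQ_surjective
  rw [← hq, ← card_Gr]
  symm
  apply Finset.card_bij (fun B _ => B.comap U.mkQ)
  · intro B hB
    rw [mem_filter, mem_Gr]
    rw [mem_Gr] at hB
    refine ⟨?_, Submodule.le_comap_mkQ U B⟩
    rw [finrank_comap_mkQ, hB]
    omega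
  · intro B _ B' _ h
    exact Submodule.comap_injective_of_surjective U.mkQ_surjective h
  · intro A hA
    rw [mem_filter, mem_Gr] at hA
    have h1 : (A.map U.mkQ).comap U.mkQ = A := by
      rw [Submodule.comap_map_mkQ, sup_eq_right.mpr hA.2]
    refine ⟨A.map U.mkQ, ?_, h1⟩
    rw [mem_Gr]
    have := finrank_comap_mkQ U (A.map U.mkQ)
    rw [h1] at this
    omega

lemma gauss_zero [Finite K] (a : ℕ) : gauss K a 0 = 1 := by
  unfold gauss
  rw [Set.ncard_eq_one]
  refine ⟨⊥, ?_⟩
  ext U
  simp [Submodule.finrank_eq_zero]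

lemma gauss_one [Fintype K] (a : ℕ) : gauss K a 1 = br (Fintype.card K) a := by
  have h := Projectivization.card_of_finrank K (Fin a → K) (n := a) (by simp)
  rw [Nat.card_congr (Projectivization.equivSubmodule K (Fin a → K))] at h
  unfold gauss br
  rw [← Nat.card_eq_fintype_card, ← h]
  rfl

open Classical in
lemma card_points_le [Fintype K] [Finite V] (Y : Submodule K V) :
    #((Gr K V 1).filter (· ≤ Y)) = br (Fintype.card K) (finrank K Y) := by
  rw [card_filter_le, gauss_one]

lemma gauss_succ [Fintype K] (a b : ℕ) :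
    gauss K (a + 1) (b + 1) * br (Fintype.card K) (b + 1)
      = br (Fintype.card K) (a + 1) * gauss K a b := by
  classical
  let V := Fin (a + 1) → K
  have hV : finrank K V = a + 1 := by simp [V]
  have h := Finset.sum_card_bipartiteAbove_eq_sum_card_bipartiteBelow
    (s := Gr K V 1) (t := Gr K V (b + 1)) (fun P A => P ≤ A)
  have h1 : ∑ P ∈ Gr K V 1, #((Gr K V (b + 1)).bipartiteAbove (fun P A => P ≤ A) P)
      = br (Fintype.card K) (a + 1) * gauss K a b := by
    rw [Finset.sum_congr rfl (g := fun _ => gauss K a b), sum_const, card_Gr, hV, gauss_one,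
      smul_eq_mul]
    intro P hP
    rw [mem_Gr] at hP
    have := card_filter_ge P (b + 1) (by omega)
    rw [hP, hV] at this
    simpa [Finset.bipartiteAbove] using this
  have h2 : ∑ A ∈ Gr K V (b + 1), #((Gr K V 1).bipartiteBelow (fun P A => P ≤ A) A)
      = gauss K (a + 1) (b + 1) * br (Fintype.card K) (b + 1) := by
    rw [Finset.sum_congr rfl (g := fun _ => br (Fintype.card K) (b + 1)), sum_const, card_Gr, hV,
      smul_eq_mul]
    intro A hA
    rw [mem_Gr] at hA
    have := card_points_le A
    rw [hA] at this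
    simpa [Finset.bipartiteBelow] using this
  rw [← h1, ← h2, h]

lemma two_le_card (K : Type u) [Field K] [Fintype K] : 2 ≤ Fintype.card K := Fintype.one_lt_card

lemma gauss_step [Fintype K] {a b : ℕ} (h : b ≤ a) :
    gauss K a b * Fintype.card K ^ (a - b) ≤ gauss K (a + 1) (b + 1) := by
  have h1 := gauss_succ (K := K) a b
  have h2 := br_mul_pow_le (Fintype.card K) (b + 1) (a - b)
  rw [show b + 1 + (a - b) = a + 1 by omega] at h2
  have h3 : 0 < br (Fintype.card K) (b + 1) := br_pos (by omega)
  apply Nat.le_of_mul_le_mul_right _ h3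
  rw [h1]
  nlinarith [Nat.zero_le (gauss K a b)]

lemma gauss_succ_right [Fintype K] (b d : ℕ) :
    gauss K (b + d) (b + 1) * br (Fintype.card K) (b + 1)
      = gauss K (b + d) b * br (Fintype.card K) d := by
  induction b with
  | zero => simp [gauss_zero, gauss_one, br_one]
  | succ b ih =>
    have h1 := gauss_succ (K := K) (b + d) (b + 1)
    have h2 := gauss_succ (K := K) (b + d) b
    have h3 : 0 < br (Fintype.card K) (b + 1) := br_pos (by omega)
    rw [show b + 1 + d = b + d + 1 by ring]
    apply Nat.eq_of_mul_eq_mul_right h3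
    rw [h1, mul_assoc, ih, mul_assoc, mul_comm (br _ d), ← mul_assoc (gauss K (b + d + 1) (b + 1)), h2]
    ring

lemma gauss_pos [Fintype K] (b d : ℕ) : 0 < gauss K (b + d) b := by
  induction b with
  | zero => simp [gauss_zero]
  | succ b ih =>
    have := gauss_step (K := K) (a := b + d) (b := b) (by omega)
    rw [show b + 1 + d = b + d + 1 by ring]
    have h2 : 0 < Fintype.card K ^ (b + d - b) := Nat.pow_pos (by have := two_le_card K; omega)
    exact lt_of_lt_of_le (Nat.mul_pos ih h2) this

/-- The number of `k`-subspaces of an `n`-space that contain a fixed `u`-subspace. -/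
noncomputable def cc (K : Type u) [Field K] (n k u : ℕ) : ℕ :=
  if u ≤ k then gauss K (n - u) (k - u) else 0

open Classical in
lemma card_filter_ge' [Finite K] [Finite V] (U : Submodule K V) (k : ℕ) :
    #((Gr K V k).filter (U ≤ ·)) = cc K (finrank K V) k (finrank K U) := by
  unfold cc
  split_ifs with h
  · exact card_filter_ge U k h
  · rw [Finset.card_eq_zero, Finset.filter_eq_empty_iff]
    intro A hA hUA
    rw [mem_Gr] at hA
    have := Submodule.finrank_mono hUA
    omega

lemma cc_step [Fintype K] {n k : ℕ} (h : k ≤ n) (u : ℕ) :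
    cc K n k (u + 1) * Fintype.card K ^ (n - k) ≤ cc K n k u := by
  unfold cc
  split_ifs with h1 h2 h2
  · have := gauss_step (K := K) (a := n - (u + 1)) (b := k - (u + 1)) (by omega)
    rw [show n - (u + 1) - (k - (u + 1)) = n - k by omega, show n - (u + 1) + 1 = n - u by omega,
      show k - (u + 1) + 1 = k - u by omega] at this
    exact this
  · omega
  · simp
  · simp

lemma cc_steps [Fintype K] {n k : ℕ} (h : k ≤ n) (u d : ℕ) :
    cc K n k (u + d) * Fintype.card K ^ ((n - k) * d) ≤ cc K n k u := by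
  induction d with
  | zero => simp
  | succ d ih =>
    have := cc_step (K := K) h (u + d)
    calc cc K n k (u + (d + 1)) * Fintype.card K ^ ((n - k) * (d + 1))
        = (cc K n k (u + d + 1) * Fintype.card K ^ (n - k)) * Fintype.card K ^ ((n - k) * d) := by
          rw [mul_add, mul_one, pow_add, ← add_assoc]; ring
      _ ≤ cc K n k (u + d) * Fintype.card K ^ ((n - k) * d) := Nat.mul_le_mul_right _ this
      _ ≤ _ := ih

lemma cc_self [Finite K] (n k : ℕ) : cc K n k k = 1 := by
  simp [cc, gauss_zero]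

lemma finrank_sup_point [Finite V] {U P : Submodule K V} (hP : finrank K P = 1) (h : ¬ P ≤ U) :
    finrank K (U ⊔ P : Submodule K V) = finrank K U + 1 := by
  have h1 := Submodule.finrank_sup_add_finrank_inf_eq U P
  have h2 : U ⊓ P < P := by
    refine lt_of_le_of_ne inf_le_right ?_
    intro h3
    exact h (h3 ▸ inf_le_left)
  have h3 := Submodule.finrank_lt_finrank_of_lt h2
  omega

lemma exists_point_le [Finite V] {A : Submodule K V} (h : A ≠ ⊥) :
    ∃ P : Submodule K V, finrank K P = 1 ∧ P ≤ A := by
  obtain ⟨x, hx, hx0⟩ := (Submodule.ne_bot_iff A).mp h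
  exact ⟨K ∙ x, finrank_span_singleton hx0, (Submodule.span_singleton_le_iff_mem x A).mpr hx⟩

end Pool.Agent.Lib.MP_5499ac_co
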