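import Mathlib

namespace Pool.Agent.Lib.MP_5499ac_co

universe u

/-- The Gaussian binomial coefficient: the number of `b`-dimensional subspaces of `K^a`. -/
noncomputable def gauss (K : Type u) [Field K] (a b : ℕ) : ℕ :=
  Set.ncard {U : Submodule K (Fin a → K) | Module.finrank K U = b}

/-- `M` is admissible for the finite field `K` with `q` elements: for all large `k`, all
`n ≥ 2k + M` and every intersecting family `F` of `k`-subspaces of `K^n`, at most
`(q^(k+1) - 1)/(q - 1)` points lie in more than `gauss K (n-2) (k-2)` members of `F`. -/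
def Admissible (K : Type u) [Field K] [Fintype K] (M : ℤ) : Prop :=
  ∃ k₀ : ℕ, ∀ k : ℕ, k₀ ≤ k → ∀ n : ℕ, 2 * (k : ℤ) + M ≤ (n : ℤ) →
    ∀ F : Set (Submodule K (Fin n → K)),
      (∀ A ∈ F, Module.finrank K A = k) →
      (∀ A ∈ F, ∀ B ∈ F, 1 ≤ Module.finrank K ↥(A ⊓ B)) →
      Set.ncard {P : Submodule K (Fin n → K) | Module.finrank K P = 1 ∧
          gauss K (n - 2) (k - 2) < Set.ncard {A | A ∈ F ∧ P ≤ A}}
        ≤ (Fintype.card K ^ (k + 1) - 1) / (Fintype.card K - 1)

end Pool.Agent.Lib.MP_5499ac_co
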