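import Pool.Agent.Lib.MP_5499ac_co.Avg

namespace Pool.Agent.Lib.MP_5499ac_co

open Module Finset
open scoped BigOperators

universe u v w

variable {K : Type u} [Field K] {V : Type v} [AddCommGroup V] [Module K V]

/-- The graph of multiplication by `c`. -/
def jmap (K : Type u) [Field K] {L : Type w} [Field L] [Algebra K L] (c : L) : L →ₗ[K] L × L :=
  LinearMap.prod LinearMap.id (LinearMap.mulLeft K c)

@[simp] lemma jmap_apply {L : Type w} [Field L] [Algebra K L] (c x : L) :
    jmap K c x = (x, c * x) := rfl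

lemma jpair_surj {L : Type w} [Field L] [Algebra K L] {c c' : L} (h : c ≠ c')
    (A A' : L →ₗ[K] V) : ∃ B : (L × L) →ₗ[K] V, B ∘ₗ jmap K c = A ∧ B ∘ₗ jmap K c' = A' := by
  let p : L → L → ((L × L) →ₗ[K] L) := fun a b =>
    LinearMap.mulLeft K (a - b)⁻¹ ∘ₗ
      (LinearMap.snd K L L - LinearMap.mulLeft K b ∘ₗ LinearMap.fst K L L)
  have h1 : ∀ a b x : L, a ≠ b → p a b (x, a * x) = x := by
    intro a b x hab
    have : a - b ≠ 0 := sub_ne_zero.mpr hab
    simp only [p, LinearMap.comp_apply, LinearMap.sub_apply, LinearMap.mulLeft_apply,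
      LinearMap.snd_apply, LinearMap.fst_apply]
    field_simp
  have h2 : ∀ a b x : L, p a b (x, b * x) = 0 := by
    intro a b x
    simp [p]
  refine ⟨A ∘ₗ p c c' + A' ∘ₗ p c' c, ?_, ?_⟩
  · ext x
    simp [h1 c c' x h, h2]
  · ext x
    simp [h1 c' c x h.symm, h2]

lemma ekr_aux [Fintype K] (hK : Fintype.card K = 2) [Finite V] {L : Type w} [Field L]
    [Algebra K L] [Finite L] (k : ℕ) (hL : finrank K L = k) (hV : finrank K V = 2 * k)
    (W : Finset (Submodule K V)) (hW : Inter W) (hd : ∀ A ∈ W, finrank K A = k) :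
    #W * 2 ^ k ≤ 24 * 2 ^ (k * k) := by
  classical
  have : Finite (L →ₗ[K] V) := DFunLike.finite _
  have : Finite ((L × L) →ₗ[K] V) := DFunLike.finite _
  let : Fintype (L →ₗ[K] V) := Fintype.ofFinite _
  let : Fintype ((L × L) →ₗ[K] V) := Fintype.ofFinite _
  let : Fintype L := Fintype.ofFinite _
  have hcL : Fintype.card L = 2 ^ k := by rw [Module.card_eq_pow_finrank (K := K), hK, hL]
  let good : (L →ₗ[K] V) → Prop := fun A => Function.Injective A ∧ LinearMap.range A ∈ W
  let f : (L →ₗ[K] V) → ℝ := fun A => if good A then 1 else 0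
  set β : ℝ := 𝔼 A, f A with hβ
  have hβ0 : 0 ≤ β := expect_nonneg fun A _ => by simp only [f]; split_ifs <;> norm_num
  let cp : L → (((L × L) →ₗ[K] V) →+ (L →ₗ[K] V)) := fun c =>
    (LinearMap.lcomp K V (jmap K c)).toAddMonoidHom
  have hcp : ∀ c B, cp c B = B ∘ₗ jmap K c := fun _ _ => rfl
  have hcov : ∀ c c' : L, 𝔼 B, (f (cp c B) - β) * (f (cp c' B) - β) ≤
      if c' = c then β else 0 := by
    intro c c'
    split_ifs with h
    · subst h
      have hs : Function.Surjective (cp c') := by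
        intro A
        exact ⟨A ∘ₗ LinearMap.fst K L L, by ext x; simp [hcp]⟩
      rw [expect_comp_surj (cp c') hs (fun A => (f A - β) * (f A - β))]
      have : ∀ A, (f A - β) * (f A - β) = f A * (1 - 2 * β) + β ^ 2 := by
        intro A
        simp only [f]
        split_ifs <;> ring
      simp_rw [this]
      rw [expect_add_distrib, ← expect_mul, Fintype.expect_const, ← hβ]
      nlinarith [sq_nonneg β]
    · have hs : Function.Surjective ((cp c).prod (cp c')) := by
        rintro ⟨A, A'⟩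
        obtain ⟨B, h1, h2⟩ := jpair_surj (Ne.symm h) A A'
        exact ⟨B, Prod.ext h1 h2⟩
      have := expect_comp_surj _ hs (fun p => (f p.1 - β) * (f p.2 - β))
      simp only [AddMonoidHom.prod_apply] at this
      rw [this, expect_prod_mul (fun A => f A - β) (fun A => f A - β), expect_sub_distrib,
        Fintype.expect_const, ← hβ]
      simp
  set m : ℝ := 2 ^ k with hm
  have hm0 : 0 < m := by positivity
  have hvar : 𝔼 B, (∑ c : L, f (cp c B) - m * β) ^ 2 ≤ m * β := by
    have h1 : ∀ B, (∑ c : L, f (cp c B) - m * β) ^ 2 =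
        ∑ c : L, ∑ c' : L, (f (cp c B) - β) * (f (cp c' B) - β) := by
      intro B
      rw [← sum_mul_sum, sum_sub_distrib, sum_const, card_univ, hcL, nsmul_eq_mul, sq]
      push_cast
      rfl
    simp_rw [h1, expect_sum_comm]
    calc _ ≤ ∑ c : L, ∑ c' : L, (if c' = c then β else 0) :=
          sum_le_sum fun c _ => sum_le_sum fun c' _ => hcov c c'
      _ = m * β := by simp [hcL, hm]
  have hone : ∀ B : (L × L) →ₗ[K] V, Function.Injective B → ∑ c : L, f (cp c B) ≤ 1 := by
    intro B hB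
    simp only [f]
    rw [sum_boole]
    have : #{c : L | good (cp c B)} ≤ 1 := by
      rw [card_le_one]
      intro c hc c' hc'
      rw [mem_filter] at hc hc'
      by_contra hne
      apply hW _ hc.2.2 _ hc'.2.2
      rw [eq_bot_iff]
      rintro x ⟨⟨y, hy⟩, ⟨y', hy'⟩⟩
      simp only [hcp, LinearMap.comp_apply, jmap_apply] at hy hy'
      have h3 := hB (hy.trans hy'.symm)
      rw [Prod.mk.injEq] at h3
      obtain ⟨rfl, h4⟩ := h3
      have h5 : y = 0 := by
        by_contra h6
        exact hne (mul_right_cancel₀ h6 h4)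
      rw [← hy, h5, mul_zero]
      exact (Submodule.mem_bot K).mpr (map_zero B)
    exact_mod_cast this
  have hinj : (1 : ℝ) / 4 ≤ 𝔼 B : (L × L) →ₗ[K] V, if Function.Injective B then (1 : ℝ) else 0 := by
    have hLL : finrank K (L × L) = 2 * k := by rw [finrank_prod, hL]; ring
    have h1 := card_inj_lower (D := L × L) hK ({⊤} : Finset (Submodule K V))
      (by intro A hA; rw [mem_singleton] at hA; rw [hA, finrank_top, hV, hLL])
    have h2 : #{A : (L × L) →ₗ[K] V | Function.Injective A ∧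
        LinearMap.range A ∈ ({⊤} : Finset (Submodule K V))} ≤
        #{A : (L × L) →ₗ[K] V | Function.Injective A} := by
      apply card_le_card
      intro A hA
      rw [mem_filter] at hA ⊢
      exact ⟨hA.1, hA.2.1⟩
    have h3 := card_hom (K := K) (D := L × L) (V := V)
    rw [hK, hV, hLL] at h3
    rw [card_singleton, one_mul, hLL] at h1
    have h4 : 2 ^ (2 * k * (2 * k)) ≤ 4 * #{A : (L × L) →ₗ[K] V | Function.Injective A} := by
      refine Nat.le_trans ?_ (Nat.mul_le_mul_left 4 h2)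
      convert h1
    rw [Fintype.expect_eq_sum_div_card, sum_boole, h3, div_le_div_iff₀ (by norm_num) (by positivity)]
    rw [one_mul, mul_comm _ (4 : ℝ)]
    exact_mod_cast h4
  have hmβ : m * β ≤ 6 := by
    by_contra hcon
    push Not at hcon
    have h1 : ∀ B : (L × L) →ₗ[K] V, (if Function.Injective B then (1 : ℝ) else 0) *
        (m * β - 1) ^ 2 ≤ (∑ c : L, f (cp c B) - m * β) ^ 2 := by
      intro B
      split_ifs with hB
      · have := hone B hB
        nlinarith
      · rw [zero_mul]; exact sq_nonneg _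
    have h2 := (expect_le_expect (s := univ) fun B _ => h1 B).trans hvar
    rw [← expect_mul] at h2
    have h3 : 1 / 4 * (m * β - 1) ^ 2 ≤ m * β :=
      le_trans (mul_le_mul_of_nonneg_right hinj (sq_nonneg _)) h2
    nlinarith
  have h1 := card_inj_lower (D := L) hK W (by intro A hA; rw [hd A hA, hL])
  have h3 := card_hom (K := K) (D := L) (V := V)
  rw [hK, hV, hL] at h3
  rw [hL] at h1
  have h4 : β = #{A : L →ₗ[K] V | good A} / 2 ^ (k * (2 * k)) := by
    rw [hβ, Fintype.expect_eq_sum_div_card, sum_boole, h3]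
    push_cast
    rfl
  have h5 : (#W : ℝ) * 2 ^ (k * k) ≤ 4 * #{A : L →ₗ[K] V | good A} := by
    have : #W * 2 ^ (k * k) ≤ 4 * #{A : L →ₗ[K] V | good A} := by convert h1
    exact_mod_cast this
  have h6 : (#{A : L →ₗ[K] V | good A} : ℝ) = β * (2 ^ (k * k) * 2 ^ (k * k)) := by
    rw [h4, ← pow_add, show k * k + k * k = k * (2 * k) by ring]
    field_simp
  have h7 : (0 : ℝ) < 2 ^ (k * k) := by positivity
  have h8 : (#W : ℝ) ≤ 4 * β * 2 ^ (k * k) := by
    rw [h6] at h5
    apply le_of_mul_le_mul_right _ h7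
    linarith
  have h9 : (#W : ℝ) * m ≤ 24 * 2 ^ (k * k) := by
    calc (#W : ℝ) * m ≤ 4 * β * 2 ^ (k * k) * m := by gcongr
      _ = 4 * (m * β) * 2 ^ (k * k) := by ring
      _ ≤ 4 * 6 * 2 ^ (k * k) := by gcongr
      _ = _ := by norm_num
  rw [hm] at h9
  exact_mod_cast h9

lemma ekr_even [Fintype K] (hK : Fintype.card K = 2) [Finite V] (k : ℕ) (hk : 1 ≤ k)
    (hV : finrank K V = 2 * k)
    (W : Finset (Submodule K V)) (hW : Inter W) (hd : ∀ A ∈ W, finrank K A = k) :
    #W * 2 ^ k ≤ 24 * 2 ^ (k * k) := by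
  obtain ⟨p, hp⟩ := CharP.exists K
  have : Fact p.Prime := ⟨CharP.char_is_prime K p⟩
  have : NeZero k := ⟨by omega⟩
  exact ekr_aux hK (L := FiniteField.Extension K p k) k (FiniteField.finrank_extension K p k)
    hV W hW hd

open Classical in
lemma ekr_hyper [Fintype K] (hK : Fintype.card K = 2) [Finite V] (k : ℕ) (hk : 1 ≤ k)
    (H : Submodule K V) (hH : finrank K H = 2 * k)
    (W : Finset (Submodule K V)) (hW : Inter W) (hd : ∀ A ∈ W, finrank K A = k) :
    #(W.filter (· ≤ H)) * 2 ^ k ≤ 24 * 2 ^ (k * k) := by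
  have h := ekr_even hK k hk hH ((W.filter (· ≤ H)).image (Submodule.comap H.subtype)) ?_ ?_
  · rwa [card_image_of_injOn] at h
    intro A hA B hB hAB
    rw [mem_coe, mem_filter] at hA hB
    have := congrArg (Submodule.map H.subtype) hAB
    rwa [Submodule.map_comap_subtype, Submodule.map_comap_subtype, inf_eq_right.mpr hA.2,
      inf_eq_right.mpr hB.2] at this
  · intro A hA B hB
    obtain ⟨A, hA', rfl⟩ := mem_image.mp hA
    obtain ⟨B, hB', rfl⟩ := mem_image.mp hB
    rw [mem_filter] at hA' hB'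
    obtain ⟨x, hx, hx0⟩ := (Submodule.ne_bot_iff _).mp (hW A hA'.1 B hB'.1)
    rw [Submodule.ne_bot_iff]
    exact ⟨⟨x, hA'.2 hx.1⟩, ⟨hx.1, hx.2⟩, fun h => hx0 (congrArg Subtype.val h)⟩
  · intro A hA
    obtain ⟨A, hA', rfl⟩ := mem_image.mp hA
    rw [mem_filter] at hA'
    rw [← hd A hA'.1]
    exact (Submodule.comapSubtypeEquivOfLe hA'.2).finrank_eq

end Pool.Agent.Lib.MP_5499ac_co
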