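import Pool.Agent.Lib.MP_5499ac_co.Peel

namespace Pool.Agent.Lib.MP_5499ac_co

open Module Finset

universe u v w

variable {K : Type u} [Field K] {V : Type v} [AddCommGroup V] [Module K V]

open Classical in
/-- Number of `k`-subspaces containing `P` and a member of `W`. -/
noncomputable def updeg [Finite V] (k : ℕ) (W : Finset (Submodule K V)) (P : Submodule K V) : ℕ :=
  #((Gr K V k).filter (fun A => P ≤ A ∧ ∃ B ∈ W, B ≤ A))

lemma card_eq_deg_bot (W : Finset (Submodule K V)) : #W = deg W ⊥ := by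
  unfold deg
  congr 1
  ext A
  simp

lemma updeg_le [Fintype K] [Finite V] (k i : ℕ) (W : Finset (Submodule K V))
    (hW : ∀ A ∈ W, finrank K A = i) (P : Submodule K V) (hP : finrank K P = 1) :
    updeg k W P ≤ deg W P * cc K (finrank K V) k i + #W * cc K (finrank K V) k (i + 1) := by
  classical
  have hsub : (Gr K V k).filter (fun A => P ≤ A ∧ ∃ B ∈ W, B ≤ A) ⊆
      W.biUnion (fun B => (Gr K V k).filter (B ⊔ P ≤ ·)) := by
    intro A hA
    rw [mem_filter] at hA
    obtain ⟨hA1, hPA, B, hB, hBA⟩ := hA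
    rw [mem_biUnion]
    exact ⟨B, hB, mem_filter.mpr ⟨hA1, sup_le hBA hPA⟩⟩
  have h1 : updeg k W P ≤ ∑ B ∈ W, #((Gr K V k).filter (B ⊔ P ≤ ·)) := by
    have := (card_le_card hsub).trans card_biUnion_le
    unfold updeg
    convert this
  have h2 : ∀ B ∈ W, #((Gr K V k).filter (B ⊔ P ≤ ·)) ≤
      (if P ≤ B then cc K (finrank K V) k i else 0) + cc K (finrank K V) k (i + 1) := by
    intro B hB
    have h3 := card_filter_ge' (B ⊔ P) k
    have h4 : #((Gr K V k).filter (B ⊔ P ≤ ·)) =
        cc K (finrank K V) k (finrank K (B ⊔ P : Submodule K V)) := by convert h3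
    rw [h4]
    split_ifs with h
    · rw [sup_eq_left.mpr h, hW B hB]; omega
    · rw [finrank_sup_point hP h, hW B hB]; omega
  refine h1.trans ((sum_le_sum h2).trans ?_)
  rw [sum_add_distrib, sum_const, smul_eq_mul, ← sum_filter, sum_const, smul_eq_mul]
  unfold deg
  apply le_of_eq
  congr

lemma deg_le_split (F : Finset (Submodule K V)) (E P : Submodule K V)
    [DecidablePred (fun A : Submodule K V => ¬ E ≤ A)] :
    deg F P ≤ deg F (E ⊔ P) + deg (F.filter (fun A => ¬ E ≤ A)) P := by
  classical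
  unfold deg
  refine le_trans (card_le_card ?_) (card_union_le _ _)
  intro A hA
  simp only [mem_filter, mem_union] at hA ⊢
  by_cases h : E ≤ A
  · exact Or.inl ⟨hA.1, sup_le h hA.2⟩
  · exact Or.inr ⟨⟨hA.1, h⟩, hA.2⟩

lemma deg_le_cc [Fintype K] [Finite V] (k : ℕ) (F : Finset (Submodule K V))
    (hd : ∀ A ∈ F, finrank K A = k) (U : Submodule K V) :
    deg F U ≤ cc K (finrank K V) k (finrank K U) := by
  classical
  rw [← card_filter_ge']
  unfold deg
  apply card_le_card
  intro A hA
  simp only [mem_filter, mem_Gr] at hA ⊢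
  exact ⟨hd A hA.1, hA.2⟩

lemma star_part [Fintype K] [Finite V] (k : ℕ) (hn : 2 * k + 1 ≤ finrank K V)
    (F : Finset (Submodule K V)) (hF : Inter F)
    (hd : ∀ A ∈ F, finrank K A = k) (E P G : Submodule K V) (hE : finrank K E = 1)
    (hP : finrank K P = 1) (hG : G ∈ F) (hEG : ¬ E ≤ G) (hPG : ¬ P ≤ G ⊔ E) :
    2 * deg F (E ⊔ P) ≤ cc K (finrank K V) k 2 := by
  classical
  have hsub : F.filter (E ⊔ P ≤ ·) ⊆
      ((Gr K V 1).filter (· ≤ G)).biUnion (fun X => F.filter (X ⊔ E ⊔ P ≤ ·)) := by
    intro A hA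
    rw [mem_filter] at hA
    obtain ⟨X, hX1, hX⟩ := exists_point_le (hF A hA.1 G hG)
    rw [mem_biUnion]
    refine ⟨X, mem_filter.mpr ⟨mem_Gr.mpr hX1, hX.trans inf_le_right⟩, mem_filter.mpr ⟨hA.1, ?_⟩⟩
    rw [sup_assoc]
    exact sup_le (hX.trans inf_le_left) hA.2
  have h1 := (card_le_card hsub).trans card_biUnion_le
  have h2 : ∀ X ∈ (Gr K V 1).filter (· ≤ G),
      #(F.filter (X ⊔ E ⊔ P ≤ ·)) ≤ cc K (finrank K V) k 3 := by
    intro X hX
    rw [mem_filter, mem_Gr] at hX
    have h3 := finrank_sup_point (U := X) hE (fun h => hEG (h.trans hX.2))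
    have h4 := finrank_sup_point (U := X ⊔ E) hP
      (fun h => hPG (h.trans (sup_le_sup_right hX.2 E)))
    have h5 := deg_le_cc k F hd (X ⊔ E ⊔ P)
    rw [h4, h3, hX.1] at h5
    unfold deg at h5
    convert h5
  have h3 := sum_le_card_nsmul _ _ _ h2
  have h4 : #((Gr K V 1).filter (· ≤ G)) = br (Fintype.card K) k := by
    have := card_points_le G
    rw [hd G hG] at this
    convert this
  rw [h4, smul_eq_mul] at h3
  have h5 : deg F (E ⊔ P) ≤ br (Fintype.card K) k * cc K (finrank K V) k 3 := by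
    unfold deg
    convert h1.trans h3
  have h6 := cc_step (K := K) (n := finrank K V) (k := k) (by omega) 2
  have hq := two_le_card K
  have h7 : 2 * br (Fintype.card K) k ≤ Fintype.card K ^ (finrank K V - k) := by
    have h8 := br_le_pow hq k
    have h9 : Fintype.card K ^ (k + 1) ≤ Fintype.card K ^ (finrank K V - k) :=
      Nat.pow_le_pow_right (by omega) (by omega)
    rw [pow_succ] at h9
    nlinarith
  calc 2 * deg F (E ⊔ P) ≤ 2 * (br (Fintype.card K) k * cc K (finrank K V) k 3) := by omega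
    _ = cc K (finrank K V) k 3 * (2 * br (Fintype.card K) k) := by ring
    _ ≤ cc K (finrank K V) k 3 * Fintype.card K ^ (finrank K V - k) := Nat.mul_le_mul_left _ h7
    _ ≤ _ := h6

open Classical in
lemma final_count [Fintype K] [Finite V] (k : ℕ) (hn : 2 * k + 1 ≤ finrank K V)
    (F : Finset (Submodule K V)) (hF : Inter F)
    (hd : ∀ A ∈ F, finrank K A = k) (E : Submodule K V) (hE : finrank K E = 1)
    (Z : Finset (Submodule K V)) (hZ : #Z ≤ Fintype.card K ^ k)
    (h : ∀ P : Submodule K V, finrank K P = 1 → P ∉ Z →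
      2 * deg (F.filter (fun A => ¬ E ≤ A)) P ≤ cc K (finrank K V) k 2) :
    #((Gr K V 1).filter (fun P => cc K (finrank K V) k 2 < deg F P))
      ≤ br (Fintype.card K) (k + 1) := by
  set 𝒢 := F.filter (fun A => ¬ E ≤ A) with h𝒢
  by_cases hne : 𝒢.Nonempty
  swap
  · rw [Finset.not_nonempty_iff_eq_empty] at hne
    have hsub : (Gr K V 1).filter (fun P => cc K (finrank K V) k 2 < deg F P) ⊆ {E} := by
      intro P hP
      rw [mem_filter, mem_Gr] at hP
      rw [mem_singleton]
      by_contra hPE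
      have h1 : ¬ P ≤ E := fun h => hPE (Submodule.eq_of_le_of_finrank_le h (by omega))
      have h2 := finrank_sup_point hP.1 h1
      have h3 := deg_le_cc k F hd (E ⊔ P)
      have h4 := deg_le_split F E P
      rw [← h𝒢, hne] at h4
      rw [h2, hE] at h3
      have h5 : deg (∅ : Finset (Submodule K V)) P = 0 := by simp [deg]
      have := hP.2
      norm_num at h3
      omega
    have := card_le_card hsub
    rw [card_singleton] at this
    exact this.trans (br_pos (by omega))
  let Y : Submodule K V := 𝒢.inf (fun G => G ⊔ E)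
  have hY : ∀ P : Submodule K V, P ≤ Y ↔ ∀ G ∈ 𝒢, P ≤ G ⊔ E := by
    intro P
    exact Finset.le_inf_iff
  have hGE : ∀ G ∈ 𝒢, finrank K (G ⊔ E : Submodule K V) = k + 1 := by
    intro G hG
    rw [mem_filter] at hG
    rw [finrank_sup_point hE hG.2, hd G hG.1]
  have hstar : ∀ P : Submodule K V, finrank K P = 1 → ¬ P ≤ Y →
      2 * deg F (E ⊔ P) ≤ cc K (finrank K V) k 2 := by
    intro P hP hPY
    rw [hY] at hPY
    push Not at hPY
    obtain ⟨G, hG, hPG⟩ := hPY
    rw [mem_filter] at hG
    exact star_part k hn F hF hd E P G hE hP hG.1 hG.2 hPG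
  have hYk : finrank K Y ≤ k + 1 := by
    obtain ⟨G, hG⟩ := hne
    rw [← hGE G hG]
    exact Submodule.finrank_mono ((hY Y).mp le_rfl G hG)
  have hpts : #((Gr K V 1).filter (· ≤ Y)) = br (Fintype.card K) (finrank K Y) :=
    card_points_le Y
  by_cases hdim : finrank K Y = k + 1
  · have hsub : (Gr K V 1).filter (fun P => cc K (finrank K V) k 2 < deg F P) ⊆
        (Gr K V 1).filter (· ≤ Y) := by
      intro P hP
      rw [mem_filter] at hP ⊢
      refine ⟨hP.1, ?_⟩
      by_contra hPY
      have h1 := hstar P (mem_Gr.mp hP.1) hPY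
      have h2 := deg_le_split F E P
      have h3 : deg 𝒢 P = 0 := by
        unfold deg
        rw [card_eq_zero, filter_eq_empty_iff]
        intro G hG hPG
        have h4 : Y = G ⊔ E := Submodule.eq_of_le_of_finrank_le ((hY Y).mp le_rfl G hG)
          (by rw [hGE G hG, hdim])
        exact hPY (h4 ▸ hPG.trans le_sup_left)
      rw [← h𝒢, h3] at h2
      have := hP.2
      omega
    rw [← hdim, ← hpts]
    exact card_le_card hsub
  · have hsub : (Gr K V 1).filter (fun P => cc K (finrank K V) k 2 < deg F P) ⊆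
        (Gr K V 1).filter (· ≤ Y) ∪ Z := by
      intro P hP
      rw [mem_filter] at hP
      rw [mem_union, mem_filter]
      by_contra hcon
      push Not at hcon
      have h1 := hstar P (mem_Gr.mp hP.1) (hcon.1 hP.1)
      have h2 := deg_le_split F E P
      have h3 := h P (mem_Gr.mp hP.1) hcon.2
      rw [← h𝒢] at h2
      have := hP.2
      omega
    have h1 := (card_le_card hsub).trans (card_union_le _ _)
    rw [hpts] at h1
    have h2 : br (Fintype.card K) (finrank K Y) ≤ br (Fintype.card K) k := br_mono (by omega)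
    rw [br_succ]
    omega

end Pool.Agent.Lib.MP_5499ac_co
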