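import Pool.Agent.Lib.MP_5499ac_co.Upper

namespace Pool.Agent.Lib.MP_5499ac_co

open Module Finset

universe u v

variable {K : Type u} [Field K] {V : Type v} [AddCommGroup V] [Module K V]

lemma ncard_eq_deg [Finite V] (F : Set (Submodule K V)) (P : Submodule K V) :
    Set.ncard {A | A ∈ F ∧ P ≤ A} = deg (Set.toFinite F).toFinset P := by
  classical
  unfold deg
  rw [← Set.ncard_coe_finset]
  congr 1
  ext A
  simp

open Classical in
lemma ncard_high [Finite V] (F : Set (Submodule K V)) (c : ℕ) :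
    Set.ncard {P : Submodule K V | finrank K P = 1 ∧ c < Set.ncard {A | A ∈ F ∧ P ≤ A}} =
      #((Gr K V 1).filter (fun P => c < deg (Set.toFinite F).toFinset P)) := by
  rw [← Set.ncard_coe_finset]
  congr 1
  ext P
  simp [ncard_eq_deg]

theorem admissible_one (K : Type u) [Field K] [Fintype K] : Admissible K 1 := by
  refine ⟨114, fun k hk n hn F hd hF => ?_⟩
  have hn' : 2 * k + 1 ≤ n := by omega
  have hV : finrank K (Fin n → K) = n := by simp
  have h := upper (K := K) (V := Fin n → K) k hk (by omega) (Set.toFinite F).toFinset ?_ ?_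
  · rw [ncard_high, br_eq_div (two_le_card K)]
    rw [hV, cc, if_pos (by omega)] at h
    exact h
  · intro A hA B hB hAB
    rw [Set.Finite.mem_toFinset] at hA hB
    have := hF A hA B hB
    rw [hAB, finrank_bot] at this
    omega
  · intro A hA
    rw [Set.Finite.mem_toFinset] at hA
    exact hd A hA

lemma deg_hyper [Fintype K] [Finite V] (k : ℕ) (hk : 1 ≤ k) (Y P : Submodule K V)
    (hP : finrank K P = 1) (hPY : P ≤ Y) :
    gauss K (finrank K Y - 1) (k - 1) ≤
      Set.ncard {A | A ∈ {A : Submodule K V | finrank K A = k ∧ A ≤ Y} ∧ P ≤ A} := by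
  classical
  have hP' : finrank K (P.comap Y.subtype) = 1 := by
    rw [← hP]
    exact (Submodule.comapSubtypeEquivOfLe hPY).finrank_eq
  have h := card_filter_ge (P.comap Y.subtype) k (by omega)
  rw [hP'] at h
  rw [← h, ← Set.ncard_coe_finset]
  refine Set.ncard_le_ncard_of_injOn (Submodule.map Y.subtype) ?_
    (Submodule.map_injective_of_injective Y.injective_subtype).injOn (Set.toFinite _)
  intro A hA
  rw [mem_coe, mem_filter, mem_Gr] at hA
  refine ⟨⟨by rw [Submodule.finrank_map_subtype_eq, hA.1], Submodule.map_subtype_le Y A⟩, ?_⟩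
  have := Submodule.map_mono (f := Y.subtype) hA.2
  rwa [Submodule.map_comap_subtype, inf_eq_right.mpr hPY] at this

theorem not_admissible (K : Type u) [Field K] [Fintype K] {M : ℤ} (hM : M ≤ 0) :
    ¬ Admissible K M := by
  classical
  rintro ⟨k₀, h⟩
  have hq := two_le_card K
  obtain ⟨j, hj⟩ : ∃ j, k₀ ≤ j + 3 := ⟨k₀, by omega⟩
  have hV : finrank K (Fin (2 * (j + 3)) → K) = 2 * (j + 3) := by simp
  obtain ⟨Y, hY⟩ : ∃ Y : Submodule K (Fin (2 * (j + 3)) → K), finrank K Y = 2 * j + 5 := by
    have h1 := card_Gr (K := K) (V := Fin (2 * (j + 3)) → K) (2 * j + 5)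
    have h2 := gauss_pos (K := K) (2 * j + 5) 1
    rw [hV, show 2 * (j + 3) = 2 * j + 5 + 1 by ring] at h1
    rw [← h1] at h2
    obtain ⟨Y, hY⟩ := card_pos.mp h2
    rw [show 2 * (j + 3) = 2 * j + 5 + 1 by ring]
    exact ⟨Y, mem_Gr.mp hY⟩
  have h1 := h (j + 3) hj (2 * (j + 3)) (by push_cast; omega)
    {A | finrank K A = j + 3 ∧ A ≤ Y} (fun A hA => hA.1) ?_
  · rw [br_eq_div hq] at h1
    have h2 : br (Fintype.card K) (2 * j + 5) ≤ br (Fintype.card K) (j + 3 + 1) := by
      refine le_trans ?_ h1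
      rw [← hY, ← card_points_le, ← Set.ncard_coe_finset]
      refine Set.ncard_le_ncard ?_ (Set.toFinite _)
      intro P hP
      rw [mem_coe, mem_filter, mem_Gr] at hP
      refine ⟨hP.1, lt_of_lt_of_le ?_ (deg_hyper (j + 3) (by omega) Y P hP.1 hP.2)⟩
      have h3 := gauss_succ_right (K := K) (j + 1) (j + 3)
      have h4 := gauss_pos (K := K) (j + 1) (j + 3)
      have h5 : br (Fintype.card K) (j + 1 + 1) < br (Fintype.card K) (j + 3) :=
        br_lt_br (by omega) (by omega)
      rw [hY, show 2 * (j + 3) - 2 = j + 1 + (j + 3) by omega, show j + 3 - 2 = j + 1 by omega,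
        show 2 * j + 5 - 1 = j + 1 + (j + 3) by omega, show j + 3 - 1 = j + 1 + 1 by omega]
      apply Nat.lt_of_mul_lt_mul_right (a := br (Fintype.card K) (j + 1 + 1))
      rw [h3]
      exact Nat.mul_lt_mul_of_pos_left h5 h4
    have h3 : br (Fintype.card K) (j + 3 + 1) < br (Fintype.card K) (2 * j + 5) :=
      br_lt_br (by omega) (by omega)
    omega
  · intro A hA B hB
    have h2 := Submodule.finrank_sup_add_finrank_inf_eq A B
    have h3 := Submodule.finrank_mono (sup_le hA.2 hB.2)
    rw [hA.1, hB.1] at h2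
    omega

end Pool.Agent.Lib.MP_5499ac_co
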