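import Pool.Agent.Lib.MP_5499ac_co.Count

namespace Pool.Agent.Lib.MP_5499ac_co

open Module Finset

universe u v w

variable {K : Type u} [Field K] {V : Type v} [AddCommGroup V] [Module K V]

open Classical in
/-- Number of members of `W` containing `U`. -/
noncomputable def deg (W : Finset (Submodule K V)) (U : Submodule K V) : ℕ :=
  #(W.filter (U ≤ ·))

/-- Intersecting families. -/
def Inter (T : Finset (Submodule K V)) : Prop := ∀ A ∈ T, ∀ B ∈ T, A ⊓ B ≠ ⊥

/-- A spread intersecting layer of `i`-subspaces. -/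
def Layer [Fintype K] (i : ℕ) (W : Finset (Submodule K V)) : Prop :=
  Inter W ∧ (∀ A ∈ W, finrank K A = i) ∧
    ∀ U : Submodule K V, deg W U ≤ br (Fintype.card K) i ^ (i - finrank K U)

lemma layer_empty [Fintype K] (i : ℕ) : Layer i (∅ : Finset (Submodule K V)) := by
  refine ⟨?_, ?_, ?_⟩
  · intro A hA; simp at hA
  · intro A hA; simp at hA
  · intro U; simp [deg]

lemma deg_spread [Fintype K] [Finite V] (i : ℕ) (S W : Finset (Submodule K V))
    (hS : ∀ G ∈ S, finrank K G ≤ i) (hW : ∀ A ∈ W, finrank K A = i)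
    (hWS : ∀ A ∈ W, ∀ G ∈ S, A ⊓ G ≠ ⊥)
    (hmin : ∀ A ∈ W, ∀ U : Submodule K V, U < A → ∃ G ∈ S, U ⊓ G = ⊥) :
    ∀ (d : ℕ) (U : Submodule K V), i - finrank K U = d →
      deg W U ≤ br (Fintype.card K) i ^ d := by
  classical
  intro d
  induction d with
  | zero =>
    intro U hU
    rw [pow_zero, deg, Finset.card_le_one]
    intro A hA B hB
    rw [mem_filter] at hA hB
    have h1 : U = A := Submodule.eq_of_le_of_finrank_le hA.2 (by rw [hW A hA.1]; omega)
    have h2 : U = B := Submodule.eq_of_le_of_finrank_le hB.2 (by rw [hW B hB.1]; omega)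
    rw [← h1, ← h2]
  | succ d ih =>
    intro U hU
    by_cases hne : (W.filter (U ≤ ·)).Nonempty
    swap
    · rw [Finset.not_nonempty_iff_eq_empty] at hne
      unfold deg
      convert Nat.zero_le _
      rw [Finset.card_eq_zero]
      convert hne
    obtain ⟨A0, hA0⟩ := hne
    rw [mem_filter] at hA0
    have hlt : U < A0 := by
      refine lt_of_le_of_ne hA0.2 ?_
      intro h
      have := hW A0 hA0.1
      rw [← h] at this
      omega
    obtain ⟨G, hG, hUG⟩ := hmin A0 hA0.1 U hlt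
    have hsub : W.filter (U ≤ ·) ⊆
        ((Gr K V 1).filter (· ≤ G)).biUnion (fun X => W.filter (U ⊔ X ≤ ·)) := by
      intro A hA
      rw [mem_filter] at hA
      obtain ⟨X, hX1, hX⟩ := exists_point_le (hWS A hA.1 G hG)
      rw [mem_biUnion]
      refine ⟨X, ?_, ?_⟩
      · rw [mem_filter, mem_Gr]; exact ⟨hX1, hX.trans inf_le_right⟩
      · rw [mem_filter]; exact ⟨hA.1, sup_le hA.2 (hX.trans inf_le_left)⟩
    have h1 : #(W.filter (U ≤ ·)) ≤
        ∑ X ∈ (Gr K V 1).filter (· ≤ G), #(W.filter (U ⊔ X ≤ ·)) :=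
      (card_le_card hsub).trans card_biUnion_le
    have h2 : ∀ X ∈ (Gr K V 1).filter (· ≤ G),
        #(W.filter (U ⊔ X ≤ ·)) ≤ br (Fintype.card K) i ^ d := by
      intro X hX
      rw [mem_filter, mem_Gr] at hX
      have hXU : ¬ X ≤ U := by
        intro h
        have : X ≤ ⊥ := hUG ▸ le_inf h hX.2
        rw [le_bot_iff] at this
        have h3 := hX.1
        rw [this] at h3
        simp at h3
      have h3 := finrank_sup_point hX.1 hXU
      have := ih (U ⊔ X) (by omega)
      unfold deg at this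
      convert this
    have h3 := sum_le_card_nsmul _ _ _ h2
    have h4 := card_points_le G
    have h5 : br (Fintype.card K) (finrank K G) ≤ br (Fintype.card K) i := br_mono (hS G hG)
    have h6 : #((Gr K V 1).filter (· ≤ G)) ≤ br (Fintype.card K) i := by
      rw [← h4] at h5
      convert h5
    have : deg W U = #(W.filter (U ≤ ·)) := by unfold deg; congr
    rw [this, pow_succ, mul_comm]
    refine h1.trans (h3.trans ?_)
    rw [smul_eq_mul]
    exact Nat.mul_le_mul_right _ h6

lemma peel [Fintype K] [Finite V] (i : ℕ) (T : Finset (Submodule K V)) (hT : Inter T)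
    (hd : ∀ A ∈ T, finrank K A ≤ i) :
    ∃ T' W : Finset (Submodule K V), Inter T' ∧ (∀ A ∈ T', finrank K A < i) ∧ Layer i W ∧
      ∀ A ∈ T, A ∈ W ∨ ∃ B ∈ T', B ≤ A := by
  classical
  let C : Set (Finset (Submodule K V)) :=
    {S | T ⊆ S ∧ Inter S ∧ ∀ A ∈ S, finrank K A ≤ i}
  obtain ⟨S, hS⟩ := (Set.toFinite C).exists_maximal ⟨T, Finset.Subset.refl _, hT, hd⟩
  obtain ⟨hTS, hSI, hSd⟩ := hS.prop
  have hmax : ∀ U : Submodule K V, finrank K U ≤ i → U ≠ ⊥ → (∀ G ∈ S, U ⊓ G ≠ ⊥) → U ∈ S := by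
    intro U hU hU0 hUG
    have hC : insert U S ∈ C := by
      refine ⟨hTS.trans (subset_insert _ _), ?_, ?_⟩
      · intro A hA B hB
        rw [mem_insert] at hA hB
        rcases hA with rfl | hA
        · rcases hB with rfl | hB
          · simpa using hU0
          · exact hUG B hB
        · rcases hB with rfl | hB
          · rw [inf_comm]; exact hUG A hA
          · exact hSI A hA B hB
      · intro A hA
        rw [mem_insert] at hA
        rcases hA with rfl | hA
        · exact hU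
        · exact hSd A hA
    have := hS.le_of_ge hC (subset_insert U S)
    exact this (mem_insert_self U S)
  let W := S.filter (fun A : Submodule K V => finrank K A = i ∧ ∀ U : Submodule K V, U < A → U ∉ S)
  have hWS : W ⊆ S := filter_subset _ _
  refine ⟨S.filter (fun A : Submodule K V => finrank K A < i), W, ?_, ?_, ⟨?_, ?_, ?_⟩, ?_⟩
  · intro A hA B hB
    exact hSI A (mem_filter.mp hA).1 B (mem_filter.mp hB).1
  · intro A hA
    exact (mem_filter.mp hA).2
  · intro A hA B hB
    exact hSI A (hWS hA) B (hWS hB)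
  · intro A hA
    exact (mem_filter.mp hA).2.1
  · intro U
    refine deg_spread i S W hSd (fun A hA => (mem_filter.mp hA).2.1)
      (fun A hA G hG => hSI A (hWS hA) G hG) ?_ _ U rfl
    intro A hA U hU
    by_cases hU0 : U = ⊥
    · exact ⟨A, hWS hA, by rw [hU0]; simp⟩
    by_contra hcon
    push Not at hcon
    have h1 := (mem_filter.mp hA).2
    refine h1.2 U hU (hmax U ?_ hU0 hcon)
    have := Submodule.finrank_lt_finrank_of_lt hU
    omega
  · intro A hA
    have hAS := hTS hA
    by_cases h1 : finrank K A < i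
    · exact Or.inr ⟨A, mem_filter.mpr ⟨hAS, h1⟩, le_rfl⟩
    have h2 : finrank K A = i := by have := hSd A hAS; omega
    by_cases h3 : ∀ U : Submodule K V, U < A → U ∉ S
    · exact Or.inl (mem_filter.mpr ⟨hAS, h2, h3⟩)
    push Not at h3
    obtain ⟨U, hU, hUS⟩ := h3
    refine Or.inr ⟨U, mem_filter.mpr ⟨hUS, ?_⟩, hU.le⟩
    have := Submodule.finrank_lt_finrank_of_lt hU
    omega

lemma peel_all [Fintype K] [Finite V] (k : ℕ) (F : Finset (Submodule K V)) (hF : Inter F)
    (hd : ∀ A ∈ F, finrank K A = k) (d : ℕ) (hdk : d ≤ k) :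
    ∃ (T : Finset (Submodule K V)) (W : ℕ → Finset (Submodule K V)), Inter T ∧
      (∀ A ∈ T, finrank K A ≤ k - d) ∧ (∀ i, Layer i (W i)) ∧
      ∀ A ∈ F, (∃ B ∈ T, B ≤ A) ∨ ∃ i, k - d < i ∧ i ≤ k ∧ ∃ B ∈ W i, B ≤ A := by
  classical
  induction d with
  | zero =>
    exact ⟨F, fun _ => ∅, hF, fun A hA => (hd A hA).le, fun i => layer_empty i,
      fun A hA => Or.inl ⟨A, hA, le_rfl⟩⟩
  | succ d ih =>
    obtain ⟨T, W, hT, hTd, hW, hcov⟩ := ih (by omega)
    obtain ⟨T', W', hT', hT'd, hW', hcov'⟩ := peel (k - d) T hT hTd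
    refine ⟨T', Function.update W (k - d) W', hT', ?_, ?_, ?_⟩
    · intro A hA
      have := hT'd A hA
      omega
    · intro i
      by_cases hi : i = k - d
      · subst hi; simpa using hW'
      · rw [Function.update_of_ne hi]; exact hW i
    · intro A hA
      rcases hcov A hA with ⟨B, hB, hBA⟩ | ⟨i, hi1, hi2, B, hB, hBA⟩
      · rcases hcov' B hB with h | ⟨C, hC, hCB⟩
        · exact Or.inr ⟨k - d, by omega, by omega, B, by simpa using h, hBA⟩
        · exact Or.inl ⟨C, hC, hCB.trans hBA⟩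
      · refine Or.inr ⟨i, by omega, hi2, B, ?_, hBA⟩
        rw [Function.update_of_ne (by omega)]
        exact hB

/-- Structure theorem: off a suitable point star, `F` is generated by spread layers. -/
lemma structure_thm [Fintype K] [Finite V] (k : ℕ) (hk : 1 ≤ k) (hn : 1 ≤ finrank K V)
    (F : Finset (Submodule K V)) (hF : Inter F) (hd : ∀ A ∈ F, finrank K A = k) :
    ∃ (E : Submodule K V) (W : ℕ → Finset (Submodule K V)), finrank K E = 1 ∧
      (∀ i, Layer i (W i)) ∧
      ∀ A ∈ F, ¬ E ≤ A → ∃ i, 2 ≤ i ∧ i ≤ k ∧ ∃ B ∈ W i, B ≤ A := by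
  obtain ⟨T, W, hT, hTd, hW, hcov⟩ := peel_all k F hF hd (k - 1) (by omega)
  have hk1 : k - (k - 1) = 1 := by omega
  rw [hk1] at hTd hcov
  have hpt : ∀ B ∈ T, finrank K B = 1 := by
    intro B hB
    have h1 := hTd B hB
    have h2 : B ≠ ⊥ := by simpa using hT B hB B hB
    have h3 : finrank K B ≠ 0 := by
      intro h; exact h2 (Submodule.finrank_eq_zero.mp h)
    omega
  have hE : ∃ E : Submodule K V, finrank K E = 1 ∧ ∀ B ∈ T, B = E := by
    by_cases hne : T.Nonempty
    · obtain ⟨E, hE⟩ := hne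
      refine ⟨E, hpt E hE, ?_⟩
      intro B hB
      obtain ⟨X, hX1, hX⟩ := exists_point_le (hT B hB E hE)
      have h1 : X = B := Submodule.eq_of_le_of_finrank_le (hX.trans inf_le_left)
        (by rw [hpt B hB, hX1])
      have h2 : X = E := Submodule.eq_of_le_of_finrank_le (hX.trans inf_le_right)
        (by rw [hpt E hE, hX1])
      rw [← h1, ← h2]
    · have htop : (⊤ : Submodule K V) ≠ ⊥ := by
        intro h
        have := Submodule.finrank_eq_zero.mpr h
        rw [finrank_top] at this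
        omega
      obtain ⟨E, hE, -⟩ := exists_point_le htop
      exact ⟨E, hE, fun B hB => (hne ⟨B, hB⟩).elim⟩
  obtain ⟨E, hE1, hE⟩ := hE
  refine ⟨E, W, hE1, hW, ?_⟩
  intro A hA hEA
  rcases hcov A hA with ⟨B, hB, hBA⟩ | ⟨i, hi1, hi2, B, hB, hBA⟩
  · exact (hEA (hE B hB ▸ hBA)).elim
  · exact ⟨i, hi1, hi2, B, hB, hBA⟩

end Pool.Agent.Lib.MP_5499ac_co
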