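import Pool.Agent.Lib.MP_5499ac_co.Tail
import Pool.Agent.Lib.MP_5499ac_co.Ekr

namespace Pool.Agent.Lib.MP_5499ac_co

open Module Finset
open scoped BigOperators

universe u v w w'

variable {K : Type u} [Field K] {V : Type v} [AddCommGroup V] [Module K V]

open Classical in
/-- Indicator of the nonzero vectors of `A`. -/
noncomputable def ind (A : Submodule K V) (x : V) : ℝ := if x ∈ A ∧ x ≠ 0 then 1 else 0

lemma ind_nonneg (A : Submodule K V) (x : V) : 0 ≤ ind A x := by
  unfold ind; split_ifs <;> norm_num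

lemma sum_ind_mul [Fintype V] (A : Submodule K V) [Fintype A] (g : V → ℝ) :
    ∑ x, ind A x * g x = ∑ x : A, g x - g 0 := by
  classical
  have h1 : ∀ x, ind A x * g x = (if x ∈ A then g x else 0) - (if x = 0 then g x else 0) := by
    intro x
    unfold ind
    by_cases h0 : x = 0
    · subst h0; simp
    · by_cases hA : x ∈ A <;> simp [h0, hA]
  simp_rw [h1]
  have h2 : ∑ x ∈ univ.filter (· ∈ A), g x = ∑ x : A, g x :=
    sum_subtype _ (by intro x; simp) g
  rw [sum_sub_distrib, sum_ite_eq', ← sum_filter, h2]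
  simp

lemma sum_ind_deg (W : Finset (Submodule K V)) {x : V} (hx : x ≠ 0) :
    ∑ A ∈ W, ind A x = deg W (K ∙ x) := by
  classical
  unfold ind deg
  rw [sum_boole]
  congr 2
  ext A
  simp [hx]

lemma abs_sum_ind_chi [Fintype K] (hK : Fintype.card K = 2) [Fintype V] (A : Submodule K V)
    (ξ : V →ₗ[K] K) [Decidable (A ≤ LinearMap.ker ξ)] :
    |∑ x, ind A x * chi (ξ x)| ≤ (if A ≤ LinearMap.ker ξ then 2 ^ finrank K A else 0) + 1 := by
  let : Fintype A := Fintype.ofFinite _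
  rw [sum_ind_mul A (fun x => chi (ξ x))]
  have hc : Fintype.card A = 2 ^ finrank K A := by rw [Module.card_eq_pow_finrank (K := K), hK]
  split_ifs with h
  · have : ∀ x : A, chi (ξ x) = 1 := by
      intro x
      rw [LinearMap.mem_ker.mp (h x.2), chi_zero]
    simp only [this, sum_const, card_univ, hc, map_zero, chi_zero, nsmul_eq_mul, mul_one]
    push_cast
    have : (0 : ℝ) < 2 ^ finrank K A := by positivity
    rw [abs_le]
    constructor <;> linarith
  · obtain ⟨a, ha, ha'⟩ := SetLike.not_le_iff_exists.mp h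
    have := expect_chi_eq_zero hK (ξ ∘ₗ A.subtype).toAddMonoidHom ⟨a, ha⟩ ha'
    rw [← Fintype.card_mul_expect]
    change |_ * (𝔼 x : A, chi ((ξ ∘ₗ A.subtype).toAddMonoidHom x)) - _| ≤ _
    rw [this]
    simp

lemma special_small [Fintype K] (hK : Fintype.card K = 2) [Finite V] (k : ℕ) (hk : 114 ≤ k)
    (hV : finrank K V = 2 * k + 1) (W : Finset (Submodule K V)) (hW : Inter W)
    (hd : ∀ A ∈ W, finrank K A = k)
    (hdeg : ∀ P : Submodule K V, finrank K P = 1 → deg W P ≤ 2 ^ (k * (k - 1))) :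
    768 * #W < 2 ^ (k * k) := by
  classical
  by_contra hcon
  push Not at hcon
  let : Fintype V := Fintype.ofFinite _
  set t : ℝ := 2 ^ k with ht
  have ht0 : 0 < t := by positivity
  set w : ℝ := (#W : ℝ) with hw
  have hbig : (2 : ℝ) ^ (k * k) ≤ 768 * w := by rw [hw]; exact_mod_cast hcon
  have hkk : (0 : ℝ) < 2 ^ (k * k) := by positivity
  have hw0 : 0 < w := by linarith
  have hcV : (Fintype.card V : ℝ) = 2 * t ^ 2 := by
    rw [Module.card_eq_pow_finrank (K := K), hK, hV, ht]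
    push_cast
    ring
  let φ : V → ℝ := fun x => t / w * ∑ A ∈ W, ind A x
  have hφ0 : ∀ x, 0 ≤ φ x := fun x =>
    mul_nonneg (by positivity) (sum_nonneg fun A _ => ind_nonneg A x)
  have hφ1 : ∀ x, φ x ≤ 768 := by
    intro x
    by_cases hx : x = 0
    · have : ∑ A ∈ W, ind A x = 0 := sum_eq_zero fun A _ => by simp [ind, hx]
      simp only [φ, this]
      norm_num
    · have h1 := hdeg (K ∙ x) (finrank_span_singleton hx)
      have h2 : (deg W (K ∙ x) : ℝ) ≤ 2 ^ (k * (k - 1)) := by exact_mod_cast h1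
      simp only [φ, sum_ind_deg W hx]
      rw [div_mul_eq_mul_div, div_le_iff₀ hw0]
      refine le_trans ?_ hbig
      calc t * (deg W (K ∙ x) : ℝ) ≤ t * 2 ^ (k * (k - 1)) := by gcongr
        _ = 2 ^ (k * k) := by
          rw [ht, ← pow_add]
          congr 1
          obtain ⟨j, rfl⟩ : ∃ j, k = j + 1 := ⟨k - 1, by omega⟩
          simp only [Nat.add_sub_cancel]
          ring
  set μ : ℝ := 𝔼 x, φ x with hμ
  have hμ0 : 0 ≤ μ := expect_nonneg fun x _ => hφ0 x
  have hμ1 : μ ≤ 1 / 2 := by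
    rw [hμ, Fintype.expect_eq_sum_div_card, hcV, div_le_iff₀ (by positivity)]
    simp only [φ]
    rw [← mul_sum, sum_comm]
    have h1 : ∀ A ∈ W, ∑ x, ind A x ≤ t := by
      intro A hA
      let : Fintype A := Fintype.ofFinite _
      have := sum_ind_mul A (fun _ => (1 : ℝ))
      simp only [mul_one, sum_const, card_univ, nsmul_eq_mul] at this
      rw [this, Module.card_eq_pow_finrank (K := K), hK, hd A hA]
      push_cast
      linarith
    have h2 := sum_le_card_nsmul _ _ _ h1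
    rw [nsmul_eq_mul, ← hw] at h2
    calc t / w * ∑ A ∈ W, ∑ x, ind A x ≤ t / w * (w * t) := by gcongr
      _ = _ := by field_simp
  let ψ : V → ℝ := fun x => φ x - μ
  have hψ : 𝔼 x, ψ x = 0 := by
    simp only [ψ]
    rw [expect_sub_distrib, Fintype.expect_const, ← hμ, sub_self]
  have hC : ∀ x, |ψ x| ≤ 768 := by
    intro x
    have := hφ0 x
    have := hφ1 x
    rw [abs_le]
    simp only [ψ]
    constructor <;> linarith
  have hη : ∀ ξ : V →ₗ[K] K, |hat ψ ξ| ≤ 2 ^ 14 / t := by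
    intro ξ
    by_cases hξ : ξ = 0
    · subst hξ
      have : hat ψ (0 : V →ₗ[K] K) = 0 := by simpa [hat] using hψ
      rw [this, abs_zero]
      positivity
    obtain ⟨a, ha⟩ : ∃ a, ξ a ≠ 0 := by
      by_contra h
      push Not at h
      exact hξ (LinearMap.ext h)
    have h0 : 𝔼 x, chi (ξ x) = 0 := expect_chi_eq_zero hK ξ.toAddMonoidHom a ha
    have h1 : hat ψ ξ = t / w * (∑ A ∈ W, ∑ x, ind A x * chi (ξ x)) / (2 * t ^ 2) := by
      unfold hat
      simp only [ψ, sub_mul]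
      rw [expect_sub_distrib, ← mul_expect, h0, mul_zero, sub_zero,
        Fintype.expect_eq_sum_div_card, hcV, sum_comm, mul_sum]
      congr 1
      refine sum_congr rfl fun x _ => ?_
      simp only [φ]
      rw [mul_assoc, sum_mul]
    have hker : finrank K (LinearMap.ker ξ) = 2 * k := by
      have := Module.Dual.finrank_ker_add_one_of_ne_zero hξ
      omega
    have h2 := ekr_hyper hK k (by omega) _ hker W hW hd
    have h3 : (#(W.filter (· ≤ LinearMap.ker ξ)) : ℝ) * t ≤ 24 * 2 ^ (k * k) := by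
      have : #(W.filter (· ≤ LinearMap.ker ξ)) * 2 ^ k ≤ 24 * 2 ^ (k * k) := by convert h2
      rw [ht]
      exact_mod_cast this
    have h4 : |∑ A ∈ W, ∑ x, ind A x * chi (ξ x)| ≤ 18433 * w := by
      refine (abs_sum_le_sum_abs _ _).trans ?_
      have h5 : ∀ A ∈ W, |∑ x, ind A x * chi (ξ x)| ≤
          (if A ≤ LinearMap.ker ξ then t else 0) + 1 := by
        intro A hA
        have := abs_sum_ind_chi hK A ξ
        rwa [hd A hA] at this
      refine (sum_le_sum h5).trans ?_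
      rw [sum_add_distrib, ← sum_filter, sum_const, sum_const, nsmul_eq_mul, nsmul_eq_mul, ← hw]
      linarith
    rw [h1, abs_div, abs_mul, abs_of_pos (show 0 < t / w by positivity),
      abs_of_pos (show 0 < 2 * t ^ 2 by positivity)]
    calc t / w * |∑ A ∈ W, ∑ x, ind A x * chi (ξ x)| / (2 * t ^ 2)
        ≤ t / w * (18433 * w) / (2 * t ^ 2) := by gcongr
      _ = (18433 / 2) / t := by field_simp
      _ ≤ _ := by gcongr; norm_num
  let I := Fin (k - 13) → K
  let J := Fin 13 → K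
  have : Finite ((I × J) →ₗ[K] V) := DFunLike.finite _
  let : Fintype ((I × J) →ₗ[K] V) := Fintype.ofFinite _
  have hJ : Fintype.card J = 2 ^ 13 := by simp [J, hK]
  have hI : (Fintype.card I : ℝ) = t / 2 ^ 13 := by
    have : Fintype.card I = 2 ^ (k - 13) := by simp [I, hK]
    rw [this, ht, eq_div_iff (by norm_num)]
    push_cast
    rw [← pow_add]
    congr 1
    omega
  have hD : finrank K (I × J) = k := by
    rw [finrank_prod]
    simp only [I, J, finrank_fintype_fun_eq_card, Fintype.card_fin]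
    omega
  have hcD : (Fintype.card (I × J) : ℝ) = t := by
    rw [Module.card_eq_pow_finrank (K := K), hK, hD, ht]
    push_cast
    rfl
  have hup := tail (I := I) hK hJ ψ hψ _ hC hη
  rw [hI] at hup
  have hgood : ∀ B : (I × J) →ₗ[K] V, LinearMap.range B ∈ W → 1 / 2 ≤ 𝔼 d, ψ (B d) := by
    intro B hB
    simp only [ψ]
    rw [expect_sub_distrib, Fintype.expect_const]
    have h1 : 1 ≤ 𝔼 d, φ (B d) := by
      rw [Fintype.expect_eq_sum_div_card, hcD, le_div_iff₀ ht0]
      simp only [φ]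
      rw [← mul_sum, sum_comm]
      have h2 : ∀ A ∈ W, (1 : ℝ) ≤ ∑ d, ind A (B d) := by
        intro A hA
        obtain ⟨x, hx, hx0⟩ := (Submodule.ne_bot_iff _).mp (hW A hA _ hB)
        obtain ⟨d, rfl⟩ := hx.2
        refine le_trans ?_ (single_le_sum (f := fun d => ind A (B d))
          (fun d _ => ind_nonneg A _) (mem_univ d))
        have h3 : B d ∈ A := hx.1
        simp [ind, h3, hx0]
      have h3 := card_nsmul_le_sum _ _ _ h2
      rw [nsmul_eq_mul, ← hw] at h3
      calc 1 * t = t / w * (w * 1) := by field_simp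
        _ ≤ _ := by gcongr
    linarith
  have hlow : 1 / (3072 * t) ≤
      𝔼 A : (I × J) →ₗ[K] V, (if 1 / 2 ≤ 𝔼 d, ψ (A d) then (1 : ℝ) else 0) := by
    have h1 := card_inj_lower (D := I × J) hK W (by intro A hA; rw [hd A hA, hD])
    have h2 : #{A : (I × J) →ₗ[K] V | Function.Injective A ∧ LinearMap.range A ∈ W} ≤
        #{A : (I × J) →ₗ[K] V | 1 / 2 ≤ 𝔼 d, ψ (A d)} := by
      apply card_le_card
      intro A hA
      rw [mem_filter] at hA ⊢
      exact ⟨hA.1, hgood A hA.2.2⟩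
    have h3 := card_hom (K := K) (D := I × J) (V := V)
    rw [hK, hV, hD] at h3
    rw [hD] at h1
    have h4 : #W * 2 ^ (k * k) ≤ 4 * #{A : (I × J) →ₗ[K] V | 1 / 2 ≤ 𝔼 d, ψ (A d)} := by
      refine Nat.le_trans ?_ (Nat.mul_le_mul_left 4 h2)
      convert h1
    have h5 : w * 2 ^ (k * k) ≤ 4 * (#{A : (I × J) →ₗ[K] V | 1 / 2 ≤ 𝔼 d, ψ (A d)} : ℝ) := by
      rw [hw]
      exact_mod_cast h4
    rw [Fintype.expect_eq_sum_div_card, sum_boole, h3,
      div_le_div_iff₀ (by positivity) (by positivity)]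
    have h6 : ((2 ^ (k * (2 * k + 1)) : ℕ) : ℝ) = 2 ^ (k * k) * 2 ^ (k * k) * t := by
      rw [ht, ← pow_add, ← pow_add]
      push_cast
      congr 1
      ring
    rw [h6]
    have h7 : (2 : ℝ) ^ (k * k) * 2 ^ (k * k) ≤ 768 * (w * 2 ^ (k * k)) := by nlinarith
    nlinarith
  have hfin := hlow.trans hup
  have htl : (2 : ℝ) ^ 114 ≤ t := pow_le_pow_right₀ (by norm_num) hk
  have e1 : (2 : ℝ) ^ 34 * (768 ^ 4 / (t / 2 ^ 13) ^ 2 + (2 ^ 14 / t) ^ 2 * 768 ^ 2 / (t / 2 ^ 13))
      = (2 ^ 60 * 768 ^ 4 * t + 2 ^ 75 * 768 ^ 2) / t ^ 3 := by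
    field_simp
  rw [e1, div_le_div_iff₀ (by positivity) (by positivity)] at hfin
  have h8 : t ^ 2 ≤ (2 ^ 60 * 768 ^ 4 * t + 2 ^ 75 * 768 ^ 2) * 3072 := by
    apply le_of_mul_le_mul_right _ ht0
    calc t ^ 2 * t = 1 * t ^ 3 := by ring
      _ ≤ _ := hfin
      _ = _ := by ring
  nlinarith

open Classical in
lemma special_Z [Fintype K] (hK : Fintype.card K = 2) [Finite V] (k : ℕ) (hk : 114 ≤ k)
    (hV : finrank K V = 2 * k + 1) (W : Finset (Submodule K V)) (hW : Layer k W) :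
    #((Gr K V 1).filter (fun P => cc K (finrank K V) k 2 < 4 * deg W P)) ≤ 2 ^ (k - 1) := by
  obtain ⟨hWI, hd, hdeg⟩ := hW
  rw [hK] at hdeg
  have hdeg' : ∀ U : Submodule K V, deg W U ≤ 2 ^ (k * (k - finrank K U)) := by
    intro U
    rw [pow_mul]
    exact (hdeg U).trans (Nat.pow_le_pow_left (br_le_pow le_rfl k) _)
  have hsmall := special_small hK k hk hV W hWI hd (fun P hP => by simpa [hP] using hdeg' P)
  by_contra hcon
  push Not at hcon
  set Z := (Gr K V 1).filter (fun P => cc K (finrank K V) k 2 < 4 * deg W P) with hZ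
  set B := cc K (finrank K V) k 2 with hB
  obtain ⟨j, rfl⟩ : ∃ j, k = j + 2 := ⟨k - 2, by omega⟩
  have hBl : 2 ^ ((j + 3) * j) ≤ B := by
    have := cc_steps (K := K) (n := finrank K V) (k := j + 2) (by omega) 2 j
    rw [add_comm 2 j, cc_self, one_mul, hK, hV, show 2 * (j + 2) + 1 - (j + 2) = j + 3 by omega] at this
    rw [hB, hV]
    exact this
  have h1 : #Z * B ≤ 4 * ∑ P ∈ Z, deg W P := by
    rw [mul_sum, ← smul_eq_mul]
    exact card_nsmul_le_sum _ _ _ fun P hP => (mem_filter.mp hP).2.le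
  have h2 : ∑ P ∈ Z, deg W P = ∑ A ∈ W, #(Z.filter (· ≤ A)) := by
    unfold deg
    simp_rw [card_filter]
    exact sum_comm
  have h3 : ∑ A ∈ W, #(Z.filter (· ≤ A)) ^ 2 = ∑ P ∈ Z, ∑ P' ∈ Z, deg W (P ⊔ P') := by
    unfold deg
    simp_rw [card_filter, sq, sum_mul_sum]
    rw [sum_comm]
    refine sum_congr rfl fun P _ => ?_
    rw [sum_comm]
    refine sum_congr rfl fun P' _ => sum_congr rfl fun A _ => ?_
    by_cases h : P ≤ A <;> by_cases h' : P' ≤ A <;> simp [h, h']
  set D2 := 2 ^ ((j + 2) * j) with hD2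
  have h4 : ∀ P ∈ Z, ∑ P' ∈ Z, deg W (P ⊔ P') ≤ 3 * #Z * D2 := by
    intro P hP
    have hP1 : finrank K P = 1 := mem_Gr.mp (mem_filter.mp hP).1
    have h5 : ∀ P' ∈ Z, deg W (P ⊔ P') ≤ (if P' = P then 2 ^ (j + 2) * D2 else 0) + D2 := by
      intro P' hP'
      have hP1' : finrank K P' = 1 := mem_Gr.mp (mem_filter.mp hP').1
      split_ifs with h
      · subst h
        have := hdeg' P'
        rw [hP1', show j + 2 - 1 = j + 1 by omega, mul_add, mul_one, pow_add, ← hD2] at this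
        rw [sup_idem, mul_comm]
        exact this.trans (Nat.le_add_right _ _)
      · have h6 : ¬ P' ≤ P := fun h' => h (Submodule.eq_of_le_of_finrank_le h' (by omega))
        have := hdeg' (P ⊔ P')
        rw [finrank_sup_point hP1' h6, hP1, show j + 2 - (1 + 1) = j by omega, ← hD2] at this
        rw [zero_add]
        exact this
    refine (sum_le_sum h5).trans ?_
    rw [sum_add_distrib, sum_ite_eq', if_pos hP, sum_const, smul_eq_mul]
    have h7 : 2 ^ (j + 2) ≤ 2 * #Z := by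
      rw [show j + 2 - 1 = j + 1 by omega] at hcon
      rw [pow_succ]
      omega
    nlinarith
  have h5 : ∑ P ∈ Z, ∑ P' ∈ Z, deg W (P ⊔ P') ≤ #Z * (3 * #Z * D2) := by
    rw [← smul_eq_mul]
    exact sum_le_card_nsmul _ _ _ h4
  have h6 := sq_sum_le_card_mul_sum_sq (s := W) (f := fun A => #(Z.filter (· ≤ A)))
  rw [h3, ← h2] at h6
  have hZ0 : 0 < #Z := lt_of_le_of_lt (Nat.zero_le _) hcon
  have h7 : (#Z * #Z) * (B * B) ≤ (#Z * #Z) * (48 * #W * D2) := by
    calc (#Z * #Z) * (B * B) = (#Z * B) ^ 2 := by ring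
      _ ≤ (4 * ∑ P ∈ Z, deg W P) ^ 2 := Nat.pow_le_pow_left h1 2
      _ = 16 * (∑ P ∈ Z, deg W P) ^ 2 := by ring
      _ ≤ 16 * (#W * (#Z * (3 * #Z * D2))) :=
          Nat.mul_le_mul_left _ (h6.trans (Nat.mul_le_mul_left _ h5))
      _ = _ := by ring
  have h8 : B * B ≤ 48 * #W * D2 := Nat.le_of_mul_le_mul_left h7 (Nat.mul_pos hZ0 hZ0)
  have h9 : 2 ^ ((j + 2) * (j + 2)) * D2 = 16 * (2 ^ ((j + 3) * j) * 2 ^ ((j + 3) * j)) := by
    rw [hD2, ← pow_add, ← pow_add, show (16 : ℕ) = 2 ^ 4 by norm_num, ← pow_add]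
    congr 1
    ring
  have h10 : 2 ^ ((j + 3) * j) * 2 ^ ((j + 3) * j) ≤ B * B := Nat.mul_le_mul hBl hBl
  have hD0 : 0 < D2 := by positivity
  have h11 : 2 ^ ((j + 2) * (j + 2)) * D2 ≤ (768 * #W) * D2 := by
    rw [h9]
    calc _ ≤ 16 * (48 * #W * D2) := Nat.mul_le_mul_left _ (h10.trans h8)
      _ = _ := by ring
  have := Nat.le_of_mul_le_mul_right h11 hD0
  omega

end Pool.Agent.Lib.MP_5499ac_co
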