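import Pool.Agent.Lib.MP_5499ac_co.Avg

namespace Pool.Agent.Lib.MP_5499ac_co

open Module Finset
open scoped BigOperators

universe u v w w'

variable {K : Type u} [Field K] {V : Type v} [AddCommGroup V] [Module K V]

open Classical in
/-- The sign character of a field with two elements. -/
noncomputable def chi (a : K) : ℝ := if a = 0 then 1 else -1

@[simp] lemma chi_zero : chi (0 : K) = 1 := by simp [chi]

@[simp] lemma chi_one : chi (1 : K) = -1 := by simp [chi]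

lemma chi_sub [Fintype K] (hK : Fintype.card K = 2) (a b : K) : chi (a - b) = chi a * chi b := by
  rcases eq_zero_or_one hK a with rfl | rfl <;> rcases eq_zero_or_one hK b with rfl | rfl <;>
    simp [chi]

lemma expect_chi_eq_zero [Fintype K] (hK : Fintype.card K = 2) {A : Type w} [AddCommGroup A]
    [Fintype A] (π : A →+ K) (a₀ : A) (h : π a₀ ≠ 0) : 𝔼 a, chi (π a) = 0 := by
  have h1 : π a₀ = 1 := (eq_zero_or_one hK _).resolve_left h
  have h2 := expect_shift (fun a => chi (π a)) (-a₀)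
  have h3 : ∀ a, chi (π (a + -a₀)) = - chi (π a) := by
    intro a
    rw [← sub_eq_add_neg, map_sub, chi_sub hK, h1]
    simp
  simp_rw [h3] at h2
  rw [expect_neg_distrib] at h2
  linarith

/-- Fourier coefficient. -/
noncomputable def hat [Fintype V] (f : V → ℝ) (ξ : V →ₗ[K] K) : ℝ := 𝔼 x, f x * chi (ξ x)

lemma parseval [Fintype K] (hK : Fintype.card K = 2) [Fintype V] [Fintype (V →ₗ[K] K)]
    (f : V → ℝ) : ∑ ξ : V →ₗ[K] K, hat f ξ ^ 2 = 𝔼 x, f x ^ 2 := by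
  classical
  have hc : Fintype.card (V →ₗ[K] K) = Fintype.card V := by
    rw [card_hom, finrank_self, mul_one, Module.card_eq_pow_finrank (K := K) (V := V)]
  have hV : (0 : ℝ) < Fintype.card V := by exact_mod_cast Fintype.card_pos
  have h1 : ∀ ξ : V →ₗ[K] K, hat f ξ ^ 2 = 𝔼 x, 𝔼 y, f x * f y * chi (ξ (x - y)) := by
    intro ξ
    rw [sq, hat, Fintype.expect_mul_expect]
    refine expect_congr rfl fun x _ => expect_congr rfl fun y _ => ?_
    rw [map_sub, chi_sub hK]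
    ring
  have h2 : ∀ x y : V, ∑ ξ : V →ₗ[K] K, f x * f y * chi (ξ (x - y)) =
      if y = x then f x ^ 2 * Fintype.card V else 0 := by
    intro x y
    rw [← mul_sum]
    split_ifs with h
    · subst h
      simp [hc, sq]
    · have hxy : x - y ≠ 0 := sub_ne_zero.mpr (Ne.symm h)
      obtain ⟨g, hg, -⟩ := exists_dual_pair hK hxy hxy
      have := expect_chi_eq_zero hK (ev K K (x - y)) g (by change g (x - y) ≠ 0; rw [hg]; simp)
      rw [← Fintype.card_mul_expect]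
      change _ * (_ * 𝔼 ξ, chi (ev K K (x - y) ξ)) = 0
      rw [this]
      simp
  simp_rw [h1, ← expect_sum_comm, h2]
  refine expect_congr rfl fun x _ => ?_
  rw [Fintype.expect_eq_sum_div_card]
  simp only [sum_ite_eq', mem_univ, if_true]
  field_simp

/-- Autocorrelation. -/
noncomputable def gam [Fintype V] (f : V → ℝ) (s : V) : ℝ := 𝔼 x, f x * f (x + s)

lemma hat_gam [Fintype K] (hK : Fintype.card K = 2) [Fintype V] (f : V → ℝ) (ξ : V →ₗ[K] K) :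
    hat (gam f) ξ = hat f ξ ^ 2 := by
  unfold hat gam
  simp_rw [expect_mul]
  rw [expect_comm, sq, expect_mul]
  refine expect_congr rfl fun x _ => ?_
  rw [← expect_shift (fun y => f y * chi (ξ y)) x, mul_expect]
  refine expect_congr rfl fun s _ => ?_
  have : chi (ξ s) = chi (ξ (s + x)) * chi (ξ x) := by
    rw [← chi_sub hK, ← map_sub, add_sub_cancel_right]
  rw [this, add_comm x s]
  ring

lemma expect_gam [Fintype V] (f : V → ℝ) (hf : 𝔼 x, f x = 0) : 𝔼 s, gam f s = 0 := by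
  unfold gam
  rw [expect_comm]
  refine expect_eq_zero fun x _ => ?_
  rw [← mul_expect]
  simp_rw [add_comm x]
  rw [expect_shift f x, hf, mul_zero]

lemma expect_gam_sq [Fintype K] (hK : Fintype.card K = 2) [Fintype V] (f : V → ℝ) (η : ℝ)
    (hη : ∀ ξ : V →ₗ[K] K, |hat f ξ| ≤ η) : 𝔼 s, gam f s ^ 2 ≤ η ^ 2 * 𝔼 x, f x ^ 2 := by
  have : Finite (V →ₗ[K] K) := DFunLike.finite _
  let : Fintype (V →ₗ[K] K) := Fintype.ofFinite _
  rw [← parseval hK, ← parseval hK, mul_sum]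
  refine sum_le_sum fun ξ _ => ?_
  rw [hat_gam hK, sq (hat f ξ ^ 2)]
  refine mul_le_mul_of_nonneg_right ?_ (sq_nonneg _)
  rw [← sq_abs]
  exact pow_le_pow_left₀ (abs_nonneg _) (hη ξ) 2

variable {I : Type w} [AddCommGroup I] [Module K I] {J : Type w'} [AddCommGroup J] [Module K J]

lemma expect_Z [Fintype V] [Fintype I] (ψ : V → ℝ) (A : I →ₗ[K] V) :
    𝔼 x, (𝔼 v, ψ (A v + x)) ^ 2 = 𝔼 w, gam ψ (A w) := by
  simp_rw [sq, Fintype.expect_mul_expect]
  rw [expect_comm]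
  have : ∀ v : I, 𝔼 x, 𝔼 v', ψ (A v + x) * ψ (A v' + x) = 𝔼 w, gam ψ (A w) := by
    intro v
    rw [expect_comm, ← expect_shift (fun v' => 𝔼 x, ψ (A v + x) * ψ (A v' + x)) v]
    refine expect_congr rfl fun w _ => ?_
    unfold gam
    rw [← expect_shift (fun x => ψ x * ψ (x + A w)) (A v)]
    refine expect_congr rfl fun x _ => ?_
    rw [map_add]
    congr 2 <;> abel
  simp_rw [this]
  exact Fintype.expect_const _

lemma pair_moment [Fintype K] (hK : Fintype.card K = 2) [Fintype V] [Fintype I]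
    [Fintype ((I × J) →ₗ[K] V)] (ψ : V → ℝ) (hψ : 𝔼 x, ψ x = 0) (C η : ℝ)
    (hC : ∀ x, |ψ x| ≤ C) (hη : ∀ ξ : V →ₗ[K] K, |hat ψ ξ| ≤ η) {y y' : J} (hy : y ≠ 0)
    (hy' : y' ≠ 0) (hyy : y ≠ y') :
    𝔼 A : (I × J) →ₗ[K] V, (𝔼 v, ψ (A (v, y))) ^ 2 * (𝔼 v, ψ (A (v, y'))) ^ 2 ≤
      C ^ 4 / (Fintype.card I : ℝ) ^ 2 + η ^ 2 * C ^ 2 / Fintype.card I := by
  have : Finite (I →ₗ[K] V) := DFunLike.finite _
  let : Fintype (I →ₗ[K] V) := Fintype.ofFinite _
  let π : ((I × J) →ₗ[K] V) →+ ((I →ₗ[K] V) × (V × V)) :=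
    (LinearMap.lcomp K V (LinearMap.inl K I J)).toAddMonoidHom.prod
      ((ev K V (0, y)).prod (ev K V (0, y')))
  have hπ : Function.Surjective π := by
    rintro ⟨A0, x, x'⟩
    obtain ⟨A1, h1, h2⟩ := exists_map_pair hK hy hy' hyy x x'
    refine ⟨A0.coprod A1, Prod.ext ?_ (Prod.ext ?_ ?_)⟩
    · ext v
      simp [π]
    · simpa [π, ev] using h1
    · simpa [π, ev] using h2
  let g : (I →ₗ[K] V) → V → ℝ := fun A0 x => (𝔼 v, ψ (A0 v + x)) ^ 2
  have h1 := expect_comp_surj π hπ (fun p => g p.1 p.2.1 * g p.1 p.2.2)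
  have h2 : ∀ A : (I × J) →ₗ[K] V, (𝔼 v, ψ (A (v, y))) ^ 2 * (𝔼 v, ψ (A (v, y'))) ^ 2 =
      g (π A).1 (π A).2.1 * g (π A).1 (π A).2.2 := by
    intro A
    have : ∀ (v : I) (z : J), A (v, z) = A (v, 0) + A (0, z) := by
      intro v z
      rw [← map_add]
      simp
    have e1 : (𝔼 v, ψ (A (v, y))) = 𝔼 v, ψ (A (v, 0) + A (0, y)) :=
      expect_congr rfl fun v _ => by rw [this v y]
    have e2 : (𝔼 v, ψ (A (v, y'))) = 𝔼 v, ψ (A (v, 0) + A (0, y')) :=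
      expect_congr rfl fun v _ => by rw [this v y']
    rw [e1, e2]
    rfl
  simp_rw [h2]
  rw [h1, ← univ_product_univ, expect_product]
  have h3 : ∀ A0 : I →ₗ[K] V, 𝔼 p : V × V, g A0 p.1 * g A0 p.2 = (𝔼 w, gam ψ (A0 w)) ^ 2 := by
    intro A0
    rw [expect_prod_mul (g A0) (g A0), expect_Z, sq]
  simp_rw [h3]
  refine (var_lemma hK (gam ψ) (expect_gam ψ hψ)).trans ?_
  have h4 : 𝔼 x, ψ x ^ 2 ≤ C ^ 2 := by
    refine expect_le univ_nonempty fun x _ => ?_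
    rw [← sq_abs]
    exact pow_le_pow_left₀ (abs_nonneg _) (hC x) 2
  have h5 : 0 ≤ 𝔼 x, ψ x ^ 2 := expect_nonneg fun _ _ => sq_nonneg _
  have h6 : gam ψ 0 = 𝔼 x, ψ x ^ 2 := by simp [gam, sq]
  have h7 : gam ψ 0 ^ 2 ≤ C ^ 4 := by
    rw [h6, show C ^ 4 = (C ^ 2) ^ 2 by ring]
    exact pow_le_pow_left₀ h5 h4 2
  have h8 : 𝔼 s, gam ψ s ^ 2 ≤ η ^ 2 * C ^ 2 :=
    (expect_gam_sq hK ψ η hη).trans (mul_le_mul_of_nonneg_left h4 (sq_nonneg _))
  gcongr

lemma two_big [Fintype J] [DecidableEq J] (hJ : Fintype.card J = 2 ^ 13) (a : J → ℝ)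
    (ha : ∀ y, a y ≤ 768) (h : 1 / 2 ≤ 𝔼 y, a y) :
    1 ≤ 256 * ∑ y, ∑ y', if y ≠ 0 ∧ y' ≠ 0 ∧ y ≠ y' then a y ^ 2 * a y' ^ 2 else 0 := by
  classical
  let S : Finset J := {y | y ≠ 0 ∧ 1 / 4 ≤ a y}
  have hS : 1 < #S := by
    by_contra hcon
    push Not at hcon
    have h1 : ∀ y, a y ≤ 1 / 4 + (if y = 0 then 768 else 0) + (if y ∈ S then 768 else 0) := by
      intro y
      have := ha y
      by_cases h0 : y = 0
      · rw [if_pos h0]; split_ifs <;> linarith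
      · rw [if_neg h0]
        split_ifs with h2
        · linarith
        · simp only [S, mem_filter, mem_univ, true_and, not_and, not_le] at h2
          have := h2 h0
          linarith
    have h2 := sum_le_sum (s := univ) fun y _ => h1 y
    rw [sum_add_distrib, sum_add_distrib, sum_const, card_univ, hJ, sum_ite_eq', sum_ite_mem,
      univ_inter, sum_const] at h2
    rw [Fintype.expect_eq_sum_div_card, hJ, le_div_iff₀ (by norm_num)] at h
    have h3 : (#S : ℝ) ≤ 1 := by exact_mod_cast hcon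
    simp only [mem_univ, if_true, nsmul_eq_mul] at h2
    push_cast at h h2
    linarith
  obtain ⟨y, hy, y', hy', hyy⟩ := one_lt_card.mp hS
  simp only [S, mem_filter, mem_univ, true_and] at hy hy'
  have hnn : ∀ z z' : J, 0 ≤ if z ≠ 0 ∧ z' ≠ 0 ∧ z ≠ z' then a z ^ 2 * a z' ^ 2 else 0 := by
    intro z z'
    split_ifs
    · positivity
    · exact le_rfl
  have h1 : (if y ≠ 0 ∧ y' ≠ 0 ∧ y ≠ y' then a y ^ 2 * a y' ^ 2 else 0) ≤
      ∑ y, ∑ y', if y ≠ 0 ∧ y' ≠ 0 ∧ y ≠ y' then a y ^ 2 * a y' ^ 2 else 0 :=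
    (single_le_sum (fun z' _ => hnn y z') (mem_univ y')).trans
      (single_le_sum (f := fun z => ∑ z', if z ≠ 0 ∧ z' ≠ 0 ∧ z ≠ z' then a z ^ 2 * a z' ^ 2 else 0)
        (fun z _ => sum_nonneg fun z' _ => hnn z z') (mem_univ y))
  rw [if_pos ⟨hy.1, hy'.1, hyy⟩] at h1
  have h2 : 1 / 16 ≤ a y ^ 2 := by nlinarith [hy.2]
  have h3 : 1 / 16 ≤ a y' ^ 2 := by nlinarith [hy'.2]
  have h4 : 1 / 16 * (1 / 16) ≤ a y ^ 2 * a y' ^ 2 :=
    mul_le_mul h2 h3 (by norm_num) (sq_nonneg _)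
  linarith

open Classical in
lemma tail [Fintype K] (hK : Fintype.card K = 2) [Fintype V] [Fintype I] [Fintype J]
    (hJ : Fintype.card J = 2 ^ 13)
    [Fintype ((I × J) →ₗ[K] V)] (ψ : V → ℝ) (hψ : 𝔼 x, ψ x = 0) (η : ℝ)
    (hC : ∀ x, |ψ x| ≤ 768) (hη : ∀ ξ : V →ₗ[K] K, |hat ψ ξ| ≤ η) :
    𝔼 A : (I × J) →ₗ[K] V, (if 1 / 2 ≤ 𝔼 d, ψ (A d) then (1 : ℝ) else 0) ≤
      2 ^ 34 * (768 ^ 4 / (Fintype.card I : ℝ) ^ 2 + η ^ 2 * 768 ^ 2 / Fintype.card I) := by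
  set M : ℝ := 768 ^ 4 / (Fintype.card I : ℝ) ^ 2 + η ^ 2 * 768 ^ 2 / Fintype.card I with hM
  have hM0 : 0 ≤ M := by positivity
  have h1 : ∀ A : (I × J) →ₗ[K] V, (if 1 / 2 ≤ 𝔼 d, ψ (A d) then (1 : ℝ) else 0) ≤
      256 * ∑ y : J, ∑ y' : J, if y ≠ 0 ∧ y' ≠ 0 ∧ y ≠ y' then
        (𝔼 v, ψ (A (v, y))) ^ 2 * (𝔼 v, ψ (A (v, y'))) ^ 2 else 0 := by
    intro A
    split_ifs with h
    · refine two_big hJ (fun y => 𝔼 v, ψ (A (v, y))) ?_ ?_
      · intro y
        exact expect_le univ_nonempty fun v _ => (le_abs_self _).trans (hC _)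
      · rw [← univ_product_univ, expect_product, expect_comm] at h
        exact h
    · refine mul_nonneg (by norm_num) (sum_nonneg fun y _ => sum_nonneg fun y' _ => ?_)
      split_ifs
      · positivity
      · exact le_rfl
  refine (expect_le_expect fun A _ => h1 A).trans ?_
  rw [← mul_expect]
  simp_rw [expect_sum_comm]
  have h2 : ∀ y y' : J, 𝔼 A : (I × J) →ₗ[K] V, (if y ≠ 0 ∧ y' ≠ 0 ∧ y ≠ y' then
        (𝔼 v, ψ (A (v, y))) ^ 2 * (𝔼 v, ψ (A (v, y'))) ^ 2 else 0) ≤ M := by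
    intro y y'
    split_ifs with h
    · exact pair_moment hK ψ hψ 768 η hC hη h.1 h.2.1 h.2.2
    · simpa using hM0
  calc _ ≤ 256 * ∑ _y : J, ∑ _y' : J, M := by
        gcongr with y _ y' _
        exact h2 y y'
    _ = _ := by
        simp only [sum_const, card_univ, hJ, nsmul_eq_mul]
        push_cast
        ring

end Pool.Agent.Lib.MP_5499ac_co
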