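import Pool.Agent.Lib.MP_5499ac_co.Special
import Pool.Agent.Lib.MP_5499ac_co.Final

namespace Pool.Agent.Lib.MP_5499ac_co

open Module Finset

universe u v

variable {K : Type u} [Field K] {V : Type v} [AddCommGroup V] [Module K V]

lemma pred_mul_br (p m : ℕ) : p * br (p + 1) m + 1 = (p + 1) ^ m := by
  induction m with
  | zero => simp [br]
  | succ m ih => rw [br_succ, pow_succ, ← ih]; ring

lemma cc_two_lower [Fintype K] {n k : ℕ} (h : k ≤ n) (hk : 2 ≤ k) :
    Fintype.card K ^ ((n - k) * (k - 2)) ≤ cc K n k 2 := by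
  have := cc_steps (K := K) h 2 (k - 2)
  rwa [show 2 + (k - 2) = k by omega, cc_self, one_mul] at this

lemma top_small [Fintype K] {n k : ℕ} (hk : 114 ≤ k) (hn : 2 * k + 1 ≤ n)
    (h : ¬ (Fintype.card K = 2 ∧ n = 2 * k + 1)) :
    4 * br (Fintype.card K) k ^ (k - 1) ≤ cc K n k 2 := by
  have hB := cc_two_lower (K := K) (n := n) (k := k) (by omega) (by omega)
  have hq := two_le_card K
  refine le_trans ?_ hB
  obtain ⟨j, rfl⟩ : ∃ j, k = j + 2 := ⟨k - 2, by omega⟩
  rw [show j + 2 - 1 = j + 1 by omega, show j + 2 - 2 = j by omega]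
  by_cases h2 : Fintype.card K = 2
  · have hn' : j + 4 ≤ n - (j + 2) := by
      have : n ≠ 2 * (j + 2) + 1 := fun h' => h ⟨h2, h'⟩
      omega
    rw [h2]
    calc 4 * br 2 (j + 2) ^ (j + 1) ≤ 4 * (2 ^ (j + 2)) ^ (j + 1) :=
          Nat.mul_le_mul_left _ (Nat.pow_le_pow_left (br_le_pow le_rfl _) _)
      _ = 2 ^ (2 + (j + 2) * (j + 1)) := by rw [pow_add 2 2, pow_mul]; norm_num
      _ ≤ 2 ^ ((j + 4) * j) := Nat.pow_le_pow_right (by norm_num) (by nlinarith)
      _ ≤ _ := Nat.pow_le_pow_right (by norm_num) (Nat.mul_le_mul_right _ hn')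
  · obtain ⟨p, hp⟩ : ∃ p, Fintype.card K = p + 1 := ⟨Fintype.card K - 1, by omega⟩
    rw [hp]
    have hp2 : 2 ≤ p := by omega
    have h1 : p * br (p + 1) (j + 2) ≤ (p + 1) ^ (j + 2) := by
      have := pred_mul_br p (j + 2); omega
    have h3 : 4 * (p + 1) ^ 2 ≤ p ^ (j + 1) := by
      have h4 : p + 1 ≤ p ^ 2 := by nlinarith
      calc 4 * (p + 1) ^ 2 ≤ p ^ 2 * (p ^ 2) ^ 2 :=
            Nat.mul_le_mul (by nlinarith) (Nat.pow_le_pow_left h4 2)
        _ = p ^ 6 := by ring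
        _ ≤ _ := Nat.pow_le_pow_right (by omega) (by omega)
    have h5 : (p + 1) ^ ((j + 3) * j) ≤ (p + 1) ^ ((n - (j + 2)) * j) :=
      Nat.pow_le_pow_right (by omega) (Nat.mul_le_mul_right _ (by omega))
    refine le_trans ?_ h5
    have h6 : 0 < (p + 1) ^ 2 := by positivity
    apply Nat.le_of_mul_le_mul_right _ h6
    calc 4 * br (p + 1) (j + 2) ^ (j + 1) * (p + 1) ^ 2
        = (4 * (p + 1) ^ 2) * br (p + 1) (j + 2) ^ (j + 1) := by ring
      _ ≤ p ^ (j + 1) * br (p + 1) (j + 2) ^ (j + 1) := Nat.mul_le_mul_right _ h3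
      _ = (p * br (p + 1) (j + 2)) ^ (j + 1) := by rw [mul_pow]
      _ ≤ ((p + 1) ^ (j + 2)) ^ (j + 1) := Nat.pow_le_pow_left h1 _
      _ = _ := by rw [← pow_mul, ← pow_add]; congr 1; ring

open Classical in
lemma top_layer [Fintype K] [Finite V] (k : ℕ) (hk : 114 ≤ k) (hn : 2 * k + 1 ≤ finrank K V)
    (W : Finset (Submodule K V)) (hW : Layer k W) :
    #((Gr K V 1).filter (fun P => cc K (finrank K V) k 2 < 4 * deg W P))
      ≤ Fintype.card K ^ (k - 1) := by
  by_cases h : Fintype.card K = 2 ∧ finrank K V = 2 * k + 1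
  · rw [h.1]
    exact special_Z h.1 k hk h.2 W hW
  · have h1 := top_small hk hn h
    convert Nat.zero_le _
    rw [card_eq_zero, filter_eq_empty_iff]
    intro P hP
    have h2 := hW.2.2 P
    rw [mem_Gr.mp hP] at h2
    omega

lemma mid_layer [Fintype K] [Finite V] (k i : ℕ) (hi : 3 ≤ i) (hik : i < k) (hk : 5 ≤ k)
    (hn : 2 * k + 1 ≤ finrank K V) (W : Finset (Submodule K V)) (hW : Layer i W)
    (P : Submodule K V) (hP : finrank K P = 1) :
    updeg k W P * Fintype.card K ^ (k - 5) ≤ 2 * cc K (finrank K V) k 2 := by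
  have hq := two_le_card K
  have h1 := updeg_le k i W hW.2.1 P hP
  have h2 := hW.2.2 P
  have h3 := hW.2.2 ⊥
  rw [← card_eq_deg_bot, finrank_bot, Nat.sub_zero] at h3
  rw [hP] at h2
  set q := Fintype.card K
  set n := finrank K V
  obtain ⟨j, rfl⟩ : ∃ j, i = j + 2 := ⟨i - 2, by omega⟩
  rw [show j + 2 - 1 = j + 1 by omega] at h2
  have h4 := cc_step (K := K) (n := n) (k := k) (by omega) (j + 2)
  have h5 := cc_steps (K := K) (n := n) (k := k) (by omega) 2 j
  rw [add_comm 2 j] at h5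
  have h6 : br q (j + 2) ≤ q ^ (n - k) :=
    (br_le_pow hq _).trans (Nat.pow_le_pow_right (by omega) (by omega))
  have h7 : cc K n k (j + 2 + 1) * br q (j + 2) ≤ cc K n k (j + 2) :=
    (Nat.mul_le_mul_left _ h6).trans h4
  have h8 : updeg k W P ≤ 2 * (br q (j + 2) ^ (j + 1) * cc K n k (j + 2)) := by
    calc _ ≤ _ := h1
      _ ≤ br q (j + 2) ^ (j + 1) * cc K n k (j + 2) +
            br q (j + 2) ^ (j + 2) * cc K n k (j + 2 + 1) := by gcongr
      _ = br q (j + 2) ^ (j + 1) * cc K n k (j + 2) +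
            br q (j + 2) ^ (j + 1) * (cc K n k (j + 2 + 1) * br q (j + 2)) := by ring
      _ ≤ br q (j + 2) ^ (j + 1) * cc K n k (j + 2) +
            br q (j + 2) ^ (j + 1) * cc K n k (j + 2) := by gcongr
      _ = _ := by ring
  have h9 : br q (j + 2) ^ (j + 1) * q ^ (k - 5) ≤ q ^ ((n - k) * j) := by
    calc _ ≤ (q ^ (j + 2)) ^ (j + 1) * q ^ (k - 5) := by gcongr; exact br_le_pow hq _
      _ = q ^ ((j + 2) * (j + 1) + (k - 5)) := by rw [← pow_mul, ← pow_add]
      _ ≤ _ := by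
        apply Nat.pow_le_pow_right (by omega)
        refine le_trans ?_ (Nat.mul_le_mul_right j (show k + 1 ≤ n - k by omega))
        obtain ⟨a, rfl⟩ : ∃ a, j = a + 1 := ⟨j - 1, by omega⟩
        obtain ⟨b, rfl⟩ : ∃ b, k = a + 4 + b := ⟨k - (a + 4), by omega⟩
        have : a + 4 + b - 5 + 1 = a + b := by omega
        nlinarith [Nat.zero_le (a * b)]
  calc updeg k W P * q ^ (k - 5)
      ≤ 2 * (br q (j + 2) ^ (j + 1) * cc K n k (j + 2)) * q ^ (k - 5) := by gcongr
    _ = 2 * (cc K n k (j + 2) * (br q (j + 2) ^ (j + 1) * q ^ (k - 5))) := by ring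
    _ ≤ 2 * (cc K n k (j + 2) * q ^ ((n - k) * j)) := by gcongr
    _ ≤ _ := by gcongr

lemma two_layer [Fintype K] [Finite V] (k : ℕ) (hk : 6 ≤ k)
    (hn : 2 * k + 1 ≤ finrank K V) (W : Finset (Submodule K V)) (hW : Layer 2 W)
    (P : Submodule K V) (hP : finrank K P = 1) (h0 : deg W P = 0) :
    8 * updeg k W P ≤ cc K (finrank K V) k 2 := by
  have hq := two_le_card K
  have h1 := updeg_le k 2 W hW.2.1 P hP
  have h3 := hW.2.2 ⊥
  rw [← card_eq_deg_bot, finrank_bot, Nat.sub_zero] at h3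
  rw [h0, zero_mul, zero_add] at h1
  have h4 := cc_step (K := K) (n := finrank K V) (k := k) (by omega) 2
  set q := Fintype.card K
  have h5 : #W ≤ q ^ 4 := h3.trans ((Nat.pow_le_pow_left (br_le_pow hq 2) 2).trans_eq (by ring))
  have h6 : 8 * q ^ 4 ≤ q ^ (finrank K V - k) := by
    calc 8 * q ^ 4 ≤ q ^ 3 * q ^ 4 := by
          gcongr
          exact Nat.pow_le_pow_left hq 3
      _ = q ^ 7 := by ring
      _ ≤ _ := Nat.pow_le_pow_right (by omega) (by omega)
  calc 8 * updeg k W P ≤ 8 * (q ^ 4 * cc K (finrank K V) k (2 + 1)) := by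
        gcongr
        exact h1.trans (Nat.mul_le_mul_right _ h5)
    _ = cc K (finrank K V) k (2 + 1) * (8 * q ^ 4) := by ring
    _ ≤ cc K (finrank K V) k (2 + 1) * q ^ (finrank K V - k) := by gcongr
    _ ≤ _ := h4

open Classical in
lemma two_layer_points [Fintype K] [Finite V] (W : Finset (Submodule K V)) (hW : Layer 2 W) :
    #((Gr K V 1).filter (fun P => deg W P ≠ 0)) ≤ Fintype.card K ^ 6 := by
  have hq := two_le_card K
  have h3 := hW.2.2 ⊥
  rw [← card_eq_deg_bot, finrank_bot, Nat.sub_zero] at h3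
  have hsub : (Gr K V 1).filter (fun P => deg W P ≠ 0) ⊆
      W.biUnion (fun A => (Gr K V 1).filter (· ≤ A)) := by
    intro P hP
    rw [mem_filter] at hP
    obtain ⟨A, hA⟩ := card_ne_zero.mp hP.2
    rw [mem_filter] at hA
    exact mem_biUnion.mpr ⟨A, hA.1, mem_filter.mpr ⟨hP.1, hA.2⟩⟩
  refine ((card_le_card hsub).trans card_biUnion_le).trans ?_
  have h4 : ∀ A ∈ W, #((Gr K V 1).filter (· ≤ A)) ≤ br (Fintype.card K) 2 := by
    intro A hA
    rw [card_points_le A, hW.2.1 A hA]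
  refine (sum_le_card_nsmul _ _ _ h4).trans ?_
  rw [smul_eq_mul]
  calc _ ≤ br (Fintype.card K) 2 ^ 2 * br (Fintype.card K) 2 := Nat.mul_le_mul_right _ h3
    _ ≤ (Fintype.card K ^ 2) ^ 2 * Fintype.card K ^ 2 := by gcongr <;> exact br_le_pow hq 2
    _ = _ := by ring

lemma sixteen_mul_le (k : ℕ) (hk : 114 ≤ k) : 16 * k ≤ 2 ^ (k - 5) := by
  obtain ⟨j, rfl⟩ : ∃ j, k = j + 114 := ⟨k - 114, by omega⟩
  rw [show j + 114 - 5 = j + 109 by omega, pow_add]
  have : j < 2 ^ j := Nat.lt_two_pow_self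
  omega

open Classical in
theorem upper [Fintype K] [Finite V] (k : ℕ) (hk : 114 ≤ k) (hn : 2 * k + 1 ≤ finrank K V)
    (F : Finset (Submodule K V)) (hF : Inter F) (hd : ∀ A ∈ F, finrank K A = k) :
    #((Gr K V 1).filter (fun P => cc K (finrank K V) k 2 < deg F P))
      ≤ br (Fintype.card K) (k + 1) := by
  have hq := two_le_card K
  obtain ⟨E, W, hE, hW, hcov⟩ := structure_thm k (by omega) (by omega) F hF hd
  refine final_count k hn F hF hd E hE
    ((Gr K V 1).filter (fun P => deg (W 2) P ≠ 0) ∪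
      (Gr K V 1).filter (fun P => cc K (finrank K V) k 2 < 4 * deg (W k) P)) ?_ ?_
  · refine (card_union_le _ _).trans ?_
    have h1 := two_layer_points (W 2) (hW 2)
    have h2 := top_layer k hk hn (W k) (hW k)
    have h3 : Fintype.card K ^ 6 ≤ Fintype.card K ^ (k - 1) :=
      Nat.pow_le_pow_right (by omega) (by omega)
    have h4 : Fintype.card K ^ k = Fintype.card K ^ (k - 1) * Fintype.card K := by
      rw [← pow_succ]; congr 1; omega
    rw [h4]
    nlinarith
  · intro P hP hZ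
    simp only [mem_union, mem_filter, mem_Gr, hP, true_and, not_or, not_not, not_lt] at hZ
    have h1 : deg (F.filter (fun A => ¬ E ≤ A)) P ≤ ∑ i ∈ Icc 2 k, updeg k (W i) P := by
      unfold deg updeg
      refine le_trans (card_le_card ?_) card_biUnion_le
      intro A hA
      simp only [mem_filter] at hA
      obtain ⟨i, hi1, hi2, hB⟩ := hcov A hA.1.1 hA.1.2
      exact mem_biUnion.mpr ⟨i, mem_Icc.mpr ⟨hi1, hi2⟩,
        mem_filter.mpr ⟨mem_Gr.mpr (hd A hA.1.1), hA.2, hB⟩⟩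
    have h2 : ∑ i ∈ Icc 2 k, updeg k (W i) P =
        updeg k (W 2) P + ∑ i ∈ Ico 3 k, updeg k (W i) P + updeg k (W k) P := by
      rw [← Finset.Ico_add_one_right_eq_Icc, sum_Ico_succ_top (by omega),
        sum_eq_sum_Ico_succ_bot (by omega)]
    have h3 := two_layer k (by omega) hn (W 2) (hW 2) P hP hZ.1
    have h4 : updeg k (W k) P ≤ deg (W k) P := by
      have := updeg_le k k (W k) (hW k).2.1 P hP
      rw [cc_self] at this
      simpa [cc] using this
    have h5 : (∑ i ∈ Ico 3 k, updeg k (W i) P) * Fintype.card K ^ (k - 5) ≤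
        k * (2 * cc K (finrank K V) k 2) := by
      rw [sum_mul]
      refine (sum_le_card_nsmul _ _ (2 * cc K (finrank K V) k 2) fun i hi => ?_).trans ?_
      · rw [mem_Ico] at hi
        exact mid_layer k i hi.1 hi.2 (by omega) hn (W i) (hW i) P hP
      · rw [smul_eq_mul, Nat.card_Ico]
        gcongr
        omega
    have h6 : 16 * k ≤ Fintype.card K ^ (k - 5) :=
      (sixteen_mul_le k hk).trans (Nat.pow_le_pow_left hq _)
    have h7 : 8 * ∑ i ∈ Ico 3 k, updeg k (W i) P ≤ cc K (finrank K V) k 2 := by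
      apply Nat.le_of_mul_le_mul_left (c := 2 * k) _ (by omega)
      calc 2 * k * (8 * ∑ i ∈ Ico 3 k, updeg k (W i) P)
          = (∑ i ∈ Ico 3 k, updeg k (W i) P) * (16 * k) := by ring
        _ ≤ _ := Nat.mul_le_mul_left _ h6
        _ ≤ _ := h5
        _ = _ := by ring
    have h8 := hZ.2
    omega

end Pool.Agent.Lib.MP_5499ac_co
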